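import Mathlib

namespace Pool.Agent.P.MP_f6e960_lc.X

open Finset Filter Topology

/-- The Erdos-Ulam ideal of the weight `f`. -/
def EU (f : ℕ → ℝ) : Set (Set ℕ) :=
  {A | Tendsto (fun n => (∑ i ∈ range n, A.indicator f i) / ∑ i ∈ range n, f i) atTop (𝓝 0)}

/-- Increasing-invariant families of sets. -/
def IncInv (I : Set (Set ℕ)) : Prop :=
  ∀ B ∈ I, ∀ C : Set ℕ, (∀ n, (C ∩ Set.Iio n).ncard ≤ (B ∩ Set.Iio n).ncard) → C ∈ I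

/-- `μ_n (A)`, where `μ_n` gives mass `w x` to each point `x` of the block `b x = n`. -/
noncomputable def mass (b : ℕ → ℕ) (w : ℕ → ℝ) (n : ℕ) (A : Set ℕ) : ℝ :=
  ∑ᶠ x ∈ {x | b x = n} ∩ A, w x

/-- `EU f` is the ideal of the sets `A` with `μ_n (A) → 0`, for measures `μ_n` of mass at most
one on finite blocks, with atoms tending to zero. -/
def Rep (f : ℕ → ℝ) (b : ℕ → ℕ) (w : ℕ → ℝ) : Prop :=
  (∀ n, {x | b x = n}.Finite) ∧ (∀ x, 0 ≤ w x) ∧ (∀ n, mass b w n Set.univ ≤ 1) ∧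
    Tendsto w atTop (𝓝 0) ∧ ∀ A, A ∈ EU f ↔ Tendsto (fun n => mass b w n A) atTop (𝓝 0)

/-- Dyadic block of `x`: the integer part of the binary logarithm of `f 0 + ... + f x`. -/
noncomputable def blk (f : ℕ → ℝ) (x : ℕ) : ℕ := Nat.log 2 ⌊∑ i ∈ range (x + 1), f i⌋₊

/-- Normalised weight of `x` in its dyadic block. -/
noncomputable def wt (f : ℕ → ℝ) (x : ℕ) : ℝ := f x / (2 * 2 ^ blk f x)

/-- Number of atoms of `s • μ_k` that exceed `t`. -/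
noncomputable def cnt (b : ℕ → ℕ) (w : ℕ → ℝ) (s : ℝ) (k : ℕ) (t : ℝ) : ℝ :=
  ({x | b x = k ∧ t < s * w x}.ncard : ℝ)

/-- Collision kernel of the blocks `n`, `m` in the measure `∑ k ∈ F, u k • μ_k`. -/
noncomputable def ker (b : ℕ → ℕ) (w : ℕ → ℝ) (F : Finset ℕ) (u : ℕ → ℝ) (n m : ℕ) : ℝ :=
  ∫ t in Set.Ioi (0 : ℝ), cnt b w (u n) n t * cnt b w (u m) m t / ∑ k ∈ F, cnt b w (u k) k t

/-- Condition (A): small values of the collision kernel carry little mass. -/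
def CondA (b : ℕ → ℕ) (w : ℕ → ℝ) : Prop :=
  ∀ η : ℝ, 0 < η → ∃ δ : ℝ, 0 < δ ∧ ∃ N : ℕ, ∀ (F : Finset ℕ) (u : ℕ → ℝ),
    (∀ n ∈ F, N ≤ n) → (∀ n, 0 ≤ u n) →
    ∑ n ∈ F, ∑ m ∈ F, min (ker b w F u n m) (δ * min (u n) (u m)) ≤ η * ∑ n ∈ F, u n

/-- Condition (B): a part of a block that is dominated by a small set, rescaled by small factors
of bounded sum, is small. -/
def CondB (b : ℕ → ℕ) (w : ℕ → ℝ) : Prop :=
  ∀ η : ℝ, 0 < η → ∃ δ : ℝ, 0 < δ ∧ ∀ L : ℝ, ∃ θ : ℝ, 0 < θ ∧ ∃ N : ℕ, ∀ n, N ≤ n →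
    ∀ (C B : Finset ℕ) (v : ℕ → ℝ), (∀ x ∈ C, b x = n) → (∀ z ∈ B, N ≤ b z) →
      (∀ m, ∑ z ∈ B with b z = m, w z ≤ δ) → (∀ m, 0 ≤ v m ∧ v m ≤ θ) →
      ∑ m ∈ B.image b, v m ≤ L →
      (∀ t : ℝ, 0 < t → #{x ∈ C | t ≤ w x} ≤ #{z ∈ B | t ≤ v (b z) * w z}) →
      ∑ x ∈ C, w x ≤ η

end Pool.Agent.P.MP_f6e960_lc.X
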