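import Mathlib

/-!
Layer decomposition, rounding along an order, a Hall lemma and dyadic classes.
-/

namespace Pool.Agent.P.MP_f6e960_lc.X

open Finset Filter Topology Function MeasureTheory
open scoped Classical

lemma lay (Z : Finset ℕ) (ν : ℕ → ℝ) (hν : ∀ x, 0 ≤ ν x) :
    ∃ c : Finset ℕ → ℝ, (∀ A, 0 ≤ c A) ∧
      (∀ A, c A ≠ 0 → ∀ x ∈ A, ∀ z ∈ Z, ν x ≤ ν z → z ∈ A) ∧
      (∀ x ∈ Z, ∑ A ∈ Z.powerset, (if x ∈ A then c A else 0) = ν x) ∧
      ∀ Φ : Finset ℕ → ℝ, Φ ∅ = 0 →
        ∫ t in Set.Ioi (0 : ℝ), Φ (Z.filter fun x => t < ν x) = ∑ A ∈ Z.powerset, c A * Φ A := by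
  set E : Finset ℕ → Set ℝ := fun A => {t | Z.filter (fun x => t < ν x) = A} with hE
  have hm : ∀ A, MeasurableSet (E A) := fun A => by
    have e : E A = ⋂ x, {t | (x ∈ Z ∧ t < ν x) ↔ x ∈ A} := by
      ext t; simp [hE, Finset.ext_iff]
    rw [e]
    refine MeasurableSet.iInter fun x => ?_
    by_cases h1 : x ∈ Z <;> by_cases h2 : x ∈ A <;> simp only [h1, h2, true_and, false_and,
      iff_true, iff_false, not_lt, Set.ofPred_true, Set.ofPred_false, MeasurableSet.univ,
      MeasurableSet.empty]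
    · exact measurableSet_Iio
    · exact measurableSet_Ici
  set μ : Measure ℝ := volume.restrict (Set.Ioi 0) with hμ
  have key : ∀ Φ : Finset ℕ → ℝ, Φ ∅ = 0 →
      ∫ t, Φ (Z.filter fun x => t < ν x) ∂μ = ∑ A ∈ Z.powerset, μ.real (E A) * Φ A := by
    intro Φ hΦ
    have e : (fun t => Φ (Z.filter fun x => t < ν x)) =
        fun t => ∑ A ∈ Z.powerset, (E A).indicator (fun _ => Φ A) t := by
      funext t
      rw [sum_eq_single (Z.filter fun x => t < ν x)]
      · rw [Set.indicator_of_mem (show t ∈ E _ from rfl)]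
      · exact fun A _ hA => Set.indicator_of_notMem (fun h => hA (Eq.symm h)) _
      · exact fun h => (h (mem_powerset.2 (filter_subset _ _))).elim
    rw [e, integral_finsetSum]
    · exact sum_congr rfl fun A _ => by rw [integral_indicator_const _ (hm A), smul_eq_mul]
    intro A _
    rcases A.eq_empty_or_nonempty with rfl | ⟨x, hx⟩
    · simp [hΦ]
    refine (integrable_indicator_iff (hm A)).2 (integrableOn_const ?_)
    rw [hμ, Measure.restrict_apply (hm A)]
    refine ((measure_mono (t := Set.Ioc 0 (ν x)) fun t ht => ⟨ht.2, ?_⟩).trans_lt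
      measure_Ioc_lt_top).ne
    have h1 : x ∈ Z.filter fun x => t < ν x := by rw [show _ = A from ht.1]; exact hx
    exact (mem_filter.1 h1).2.le
  refine ⟨fun A => μ.real (E A), fun A => measureReal_nonneg, fun A hA x hx z hz h => ?_,
    fun x hx => ?_, key⟩
  · obtain ⟨t, ht⟩ : (E A).Nonempty := Set.nonempty_iff_ne_empty.2 fun h => hA (by simp [h])
    have ht' : Z.filter (fun x => t < ν x) = A := ht
    rw [← ht'] at hx ⊢
    exact mem_filter.2 ⟨hz, (mem_filter.1 hx).2.trans_le h⟩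
  · have h1 := key (fun A => if x ∈ A then 1 else 0) (by simp)
    simp only [mul_ite, mul_one, mul_zero] at h1
    rw [← h1]
    have e : (fun t => if x ∈ Z.filter (fun x => t < ν x) then (1 : ℝ) else 0) =
        (Set.Iio (ν x)).indicator fun _ => 1 := by
      funext t; simp [Set.indicator, hx]
    rw [e, integral_indicator_const _ measurableSet_Iio, smul_eq_mul, mul_one, hμ,
      measureReal_restrict_apply measurableSet_Iio, Set.inter_comm, Set.Ioi_inter_Iio,
      Real.volume_real_Ioo_of_le (hν x), sub_zero]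

lemma round_up {κ : Type} [DecidableEq κ] (pos : ℕ → ℕ) (cl : ℕ → κ) (β : ℕ → ℝ) (P : Finset ℕ)
    (h0 : ∀ z ∈ P, 0 ≤ β z) (h1 : ∀ z ∈ P, β z ≤ 1) :
    ∃ B ⊆ P, (∀ k, ∑ z ∈ P with pos z ≤ k, β z ≤ #{z ∈ B | pos z ≤ k}) ∧
      ∀ j, ∑ z ∈ P with cl z = j, β z ≤ #{z ∈ B | cl z = j} ∧
        (#{z ∈ B | cl z = j} : ℝ) ≤ ∑ z ∈ P with cl z = j, β z + 1 := by
  induction P using Finset.induction_on_max_value pos with
  | empty => exact ⟨∅, Subset.rfl, by simp, by simp⟩
  | insert a s ha hle ih =>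
    obtain ⟨B, hB, p1, p2⟩ := ih (fun z hz => h0 z (mem_insert_of_mem hz))
      fun z hz => h1 z (mem_insert_of_mem hz)
    have haB : a ∉ B := fun h => ha (hB h)
    have a0 := h0 a (mem_insert_self _ _)
    have a1 := h1 a (mem_insert_self _ _)
    have fin : ∀ B' ⊆ insert a s, (∀ k, k < pos a → #{z ∈ B | pos z ≤ k} ≤ #{z ∈ B' | pos z ≤ k}) →
        (∀ j, ∑ z ∈ insert a s with cl z = j, β z ≤ #{z ∈ B' | cl z = j}) →
        ∀ k, ∑ z ∈ insert a s with pos z ≤ k, β z ≤ #{z ∈ B' | pos z ≤ k} := by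
      intro B' hB' q1 q2 k
      rcases lt_or_ge k (pos a) with h | h
      · rw [filter_insert, if_neg (not_le.2 h)]
        exact (p1 k).trans (by exact_mod_cast q1 k h)
      have e : ∀ z ∈ insert a s, pos z ≤ k := fun z hz => by
        rcases mem_insert.1 hz with rfl | hz
        exacts [h, (hle z hz).trans h]
      rw [filter_true_of_mem e, filter_true_of_mem fun z hz => e z (hB' hz),
        ← sum_fiberwise_of_maps_to (fun z hz => mem_image_of_mem cl hz),
        card_eq_sum_card_fiberwise (f := cl) (t := (insert a s).image cl)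
          fun z hz => mem_coe.2 (mem_image_of_mem cl (hB' hz))]
      push_cast
      exact sum_le_sum fun j _ => q2 j
    by_cases h : ∑ z ∈ s with cl z = cl a, β z + β a ≤ #{z ∈ B | cl z = cl a}
    · have q : ∀ j, ∑ z ∈ insert a s with cl z = j, β z ≤ #{z ∈ B | cl z = j} ∧
          (#{z ∈ B | cl z = j} : ℝ) ≤ ∑ z ∈ insert a s with cl z = j, β z + 1 := fun j => by
        rw [filter_insert]
        split_ifs with e
        · subst e
          rw [sum_insert fun h => ha (mem_filter.1 h).1]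
          exact ⟨by linarith, by linarith [(p2 (cl a)).2]⟩
        · exact p2 j
      exact ⟨B, hB.trans (subset_insert _ _), fin B (hB.trans (subset_insert _ _))
        (fun _ _ => le_rfl) fun j => (q j).1, q⟩
    · have q : ∀ j, ∑ z ∈ insert a s with cl z = j, β z ≤ #{z ∈ insert a B | cl z = j} ∧
          (#{z ∈ insert a B | cl z = j} : ℝ) ≤ ∑ z ∈ insert a s with cl z = j, β z + 1 := fun j => by
        rw [filter_insert, filter_insert]
        split_ifs with e
        · subst e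
          rw [sum_insert fun h => ha (mem_filter.1 h).1,
            card_insert_of_notMem fun h => haB (mem_filter.1 h).1]
          push_cast
          exact ⟨by linarith [(p2 (cl a)).1], by linarith [not_le.1 h]⟩
        · exact p2 j
      exact ⟨insert a B, insert_subset_insert _ hB, fin _ (insert_subset_insert _ hB)
        (fun _ _ => card_le_card (filter_subset_filter _ (subset_insert _ _))) fun j => (q j).1, q⟩

lemma hall (C B : Finset ℕ) (p q : ℕ → ℝ)
    (h : ∀ x₀ ∈ C, #{x ∈ C | p x₀ ≤ p x} ≤ #{z ∈ B | p x₀ ≤ q z}) :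
    ∃ σ : ℕ → ℕ, Set.InjOn σ C ∧ ∀ x ∈ C, σ x ∈ B ∧ p x ≤ q (σ x) := by
  obtain ⟨f, f1, f2⟩ := (Finset.all_card_le_biUnion_card_iff_exists_injective
    fun x : C => B.filter fun z => p x ≤ q z).1 (by
      intro s
      rcases s.eq_empty_or_nonempty with rfl | hs
      · simp
      obtain ⟨x₀, hx₀, hmin⟩ := s.exists_min_image (fun x => p x) hs
      refine le_trans ?_ ((h x₀ x₀.2).trans (card_le_card
        (subset_biUnion_of_mem (fun x : C => B.filter fun z => p x ≤ q z) hx₀)))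
      exact card_le_card_of_injOn Subtype.val
        (fun x hx => mem_coe.2 (mem_filter.2 ⟨x.2, hmin x hx⟩)) Subtype.val_injective.injOn)
  refine ⟨fun x => if hx : x ∈ C then f ⟨x, hx⟩ else 0, fun x hx y hy e => ?_, fun x hx => ?_⟩
  · simp only [dif_pos (mem_coe.1 hx), dif_pos (mem_coe.1 hy)] at e
    exact congrArg Subtype.val (f1 e)
  · simp only [dif_pos hx]
    exact mem_filter.1 (f2 ⟨x, hx⟩)

lemma classes (w : ℕ → ℝ) (h0 : ∀ z, 0 ≤ w z) {τ : ℝ} (hτ : 0 < τ) :
    ∃ (cl : ℕ → ℕ) (ω : ℕ → ℝ), (∀ j, 0 ≤ ω j) ∧ (∀ J : Finset ℕ, ∑ j ∈ J, ω j ≤ 4 * τ) ∧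
      ∀ z, w z ≤ τ → w z ≤ ω (cl z) ∧ ω (cl z) ≤ 2 * w z := by
  refine ⟨fun z => if w z = 0 then 0 else Nat.log 2 ⌊τ / w z⌋₊ + 1,
    fun j => if j = 0 then 0 else 2 * τ * (1 / 2) ^ j, fun j => by dsimp only; split_ifs <;> positivity,
    fun J => ?_, fun z hz => ?_⟩
  · refine (sum_le_sum (g := fun j => 2 * τ * (1 / 2 : ℝ) ^ j) fun j _ => by
      split_ifs <;> first | positivity | rfl).trans ?_
    rw [← mul_sum]
    have := (sum_le_sum_of_subset_of_nonneg (f := fun j => (1 / 2 : ℝ) ^ j) (t := range (J.sup id + 1))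
      (fun j hj => mem_range.2 (Nat.lt_succ_of_le (le_sup (f := id) hj)))
      fun _ _ _ => by positivity).trans (sum_geometric_two_le _)
    nlinarith
  by_cases h : w z = 0
  · simp [h]
  have hw : 0 < w z := (h0 z).lt_of_ne' h
  simp only [h, if_false, Nat.succ_ne_zero]
  set L := Nat.log 2 ⌊τ / w z⌋₊
  have a1 : (2 : ℝ) ^ L ≤ τ / w z := le_trans (by
    exact_mod_cast Nat.pow_log_le_self 2 (Nat.floor_pos.2 ((one_le_div hw).2 hz)).ne')
    (Nat.floor_le (by positivity))
  have a2 : τ / w z ≤ 2 ^ (L + 1) := (Nat.lt_floor_add_one _).le.trans (by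
    exact_mod_cast Nat.lt_pow_succ_log_self (b := 2) (by norm_num) _)
  have e : 2 * τ * (1 / 2 : ℝ) ^ (L + 1) = τ / 2 ^ L := by
    rw [one_div_pow, pow_succ]; field_simp
  rw [le_div_iff₀ hw] at a1
  rw [div_le_iff₀ hw, pow_succ] at a2
  rw [e, le_div_iff₀ (by positivity), div_le_iff₀ (by positivity)]
  exact ⟨by linarith, by linarith⟩

end Pool.Agent.P.MP_f6e960_lc.X
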