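import Pool.Agent.P.MP_f6e960_lc.X.Defs
import Pool.Agent.P.MP_f6e960_lc.X.Lay

/-!
Block systems, the uniform modulus of a shift-invariant order and the fractional shift lemma.
-/

namespace Pool.Agent.P.MP_f6e960_lc.X

open Finset Filter Topology Function
open scoped Classical

/-- Finite blocks with weights. -/
structure Sp where
  b : ℕ → ℕ
  w : ℕ → ℝ
  D : ℕ → Finset ℕ
  hD : ∀ x n, x ∈ D n ↔ b x = n
  h0 : ∀ x, 0 ≤ w x
  h1 : ∀ n, ∑ x ∈ D n, w x ≤ 1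
  h2 : Tendsto w atTop (𝓝 0)

namespace Sp

variable (S : Sp)

/-- Small sets. -/
def Sm (X : Set ℕ) : Prop := ∀ γ : ℝ, 0 < γ → ∀ᶠ n in atTop, ∑ x ∈ S.D n, X.indicator S.w x ≤ γ

/-- Right shifts of small sets are small. -/
def Shift (pos : ℕ → ℕ) : Prop := ∀ (X : Set ℕ) (σ : ℕ → ℕ), Set.InjOn σ X →
  (∀ x ∈ X, pos (σ x) ≤ pos x) → S.Sm (σ '' X) → S.Sm X

lemma far {τ : ℝ} (hτ : 0 < τ) : ∃ N, ∀ x, N ≤ S.b x → S.w x ≤ τ := by
  obtain ⟨x0, hx0⟩ := eventually_atTop.1 (S.h2.eventually (ge_mem_nhds hτ))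
  refine ⟨(range x0).sup S.b + 1, fun x hx => hx0 x (not_lt.1 fun h => ?_)⟩
  have := le_sup (f := S.b) (mem_range.2 h)
  omega

lemma sum_le_one {C : Finset ℕ} {n : ℕ} (h : ∀ x ∈ C, S.b x = n) : ∑ x ∈ C, S.w x ≤ 1 :=
  (sum_le_sum_of_subset_of_nonneg (fun x hx => (S.hD _ _).2 (h x hx))
    fun x _ _ => S.h0 x).trans (S.h1 n)

lemma sum_inj {C B : Finset ℕ} {σ : ℕ → ℕ} {a : ℕ → ℝ} (ha : ∀ z, 0 ≤ a z)
    (h : Set.InjOn σ C) (hB : ∀ x ∈ C, σ x ∈ B) : ∑ x ∈ C, a (σ x) ≤ ∑ z ∈ B, a z := by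
  rw [← sum_image h]
  exact sum_le_sum_of_subset_of_nonneg (image_subset_iff.2 hB) fun z _ _ => ha z

variable {S} {pos : ℕ → ℕ}

lemma unif (H : S.Shift pos) {ε : ℝ} (hε : 0 < ε) : ∃ δ : ℝ, 0 < δ ∧ ∃ N, ∀ n, N ≤ n →
    ∀ (C : Finset ℕ) (σ : ℕ → ℕ), (∀ x ∈ C, S.b x = n) → Set.InjOn σ C →
      (∀ x ∈ C, pos (σ x) ≤ pos x ∧ N ≤ S.b (σ x)) →
      (∀ m, ∑ x ∈ C with S.b (σ x) = m, S.w (σ x) ≤ δ) → ∑ x ∈ C, S.w x ≤ ε := by
  by_contra hc
  push Not at hc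
  choose n hn C σ c1 c2 c3 c4 c5 using fun t N : ℕ => hc (1 / ((t : ℝ) + 1)) (by positivity) N
  let M : ℕ → ℕ := fun t => Nat.rec 0 (fun t M =>
    max (n t M) ((C t M).sup fun x => S.b (σ t M x)) + 1) t
  have m1 : ∀ t, n t (M t) < M (t + 1) := fun t => Nat.lt_succ_of_le (le_max_left _ _)
  have m2 : ∀ t, ∀ x ∈ C t (M t), S.b (σ t (M t) x) < M (t + 1) := fun t x hx =>
    Nat.lt_succ_of_le ((le_sup (f := fun x => S.b (σ t (M t) x)) hx).trans (le_max_right _ _))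
  have m3 : StrictMono M := strictMono_nat_of_lt_succ fun t => (hn t (M t)).trans_lt (m1 t)
  have m4 : ∀ s t k, M s ≤ k → k < M (s + 1) → M t ≤ k → k < M (t + 1) → s = t := by
    intro s t k a1 a2 a3 a4
    have b1 : s < t + 1 := m3.lt_iff_lt.1 (a1.trans_lt a4)
    have b2 : t < s + 1 := m3.lt_iff_lt.1 (a3.trans_lt a2)
    omega
  let ix : ℕ → ℕ := fun x => if h : ∃ t, x ∈ C t (M t) then h.choose else 0
  have i1 : ∀ x, (∃ t, x ∈ C t (M t)) → x ∈ C (ix x) (M (ix x)) := fun x h => by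
    simp only [ix, dif_pos h]; exact h.choose_spec
  have hX := H {x | ∃ t, x ∈ C t (M t)} (fun x => σ (ix x) (M (ix x)) x) (fun x hx y hy e => by
    have a1 := i1 x hx
    have a2 := i1 y hy
    dsimp only at e
    have a3 := m4 _ _ _ (c3 _ _ x a1).2 (m2 _ x a1) (e ▸ (c3 _ _ y a2).2) (e ▸ m2 _ y a2)
    rw [← a3] at e a2
    exact c2 _ _ a1 a2 e) (fun x hx => (c3 _ _ x (i1 x hx)).1) (fun γ hγ => by
    obtain ⟨T, hT⟩ := exists_nat_one_div_lt hγ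
    filter_upwards [eventually_ge_atTop (M T)] with m hm
    rw [sum_indicator_eq_sum_filter]
    by_contra hlt
    obtain ⟨z, hz, -⟩ := exists_ne_zero_of_sum_ne_zero (hγ.trans (not_le.1 hlt)).ne'
    apply hlt
    obtain ⟨z1, x0, hx0, rfl⟩ := mem_filter.1 hz
    have a1 := i1 x0 hx0
    have a2 := (S.hD _ _).1 z1
    set t := ix x0
    have a3 : T ≤ t := Nat.le_of_lt_succ (m3.lt_iff_lt.1 (hm.trans_lt (a2 ▸ m2 _ x0 a1)))
    refine le_trans ?_ ((c4 t (M t) m).trans (le_trans ?_ hT.le))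
    · rw [← sum_image ((c2 t (M t)).mono (coe_subset.2 (filter_subset _ _)))]
      refine sum_le_sum_of_subset_of_nonneg (fun z hz => ?_) fun z _ _ => S.h0 z
      obtain ⟨z1, x, hx, rfl⟩ := mem_filter.1 hz
      have b1 := i1 x hx
      have b2 := (S.hD _ _).1 z1
      have b3 := m4 _ _ m (b2 ▸ (c3 _ _ x b1).2) (b2 ▸ m2 _ x b1) (a2 ▸ (c3 _ _ x0 a1).2)
        (a2 ▸ m2 _ x0 a1)
      dsimp only at b2 ⊢
      rw [b3] at b1 b2 ⊢
      exact mem_image_of_mem _ (mem_filter.2 ⟨b1, b2⟩)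
    · gcongr)
  obtain ⟨T, hT⟩ := eventually_atTop.1 (hX ε hε)
  refine (c5 T (M T)).not_ge (le_trans ?_ (hT _ ((m3.id_le T).trans (hn T (M T)))))
  rw [sum_indicator_eq_sum_filter]
  exact sum_le_sum_of_subset_of_nonneg (fun x hx => mem_filter.2
    ⟨(S.hD _ _).2 (c1 _ _ x hx), T, hx⟩) fun x _ _ => S.h0 x

lemma frac (H : S.Shift pos) {ε : ℝ} (hε : 0 < ε) : ∃ δ : ℝ, 0 < δ ∧ ∃ N, ∀ n, N ≤ n →
    ∀ (Z : Finset ℕ) (y : ℕ → ℕ → ℝ), (∀ z ∈ Z, N ≤ S.b z) → (∀ x z, 0 ≤ y x z) →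
      (∀ x ∈ S.D n, ∑ z ∈ Z, y x z ≤ 1) → (∀ z ∈ Z, ∑ x ∈ S.D n, y x z ≤ 1) →
      (∀ x z, y x z ≠ 0 → pos z ≤ pos x) →
      (∀ m, ∑ z ∈ Z with S.b z = m, (∑ x ∈ S.D n, y x z) * S.w z ≤ δ) →
      ∑ x ∈ S.D n, (∑ z ∈ Z, y x z) * S.w x ≤ ε := by
  obtain ⟨δ, hδ, N, hN⟩ := unif H (ε := ε / 4) (by positivity)
  set τ := min δ ε / 8 with hτ
  have τ0 : 0 < τ := by positivity
  have τ1 : 8 * τ ≤ δ := by linarith [min_le_left δ ε]
  have τ2 : 8 * τ ≤ ε := by linarith [min_le_right δ ε]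
  obtain ⟨N', hN'⟩ := S.far τ0
  obtain ⟨cl, ω, ω0, ω1, ω2⟩ := classes S.w S.h0 τ0
  refine ⟨δ / 4, by positivity, max N N', fun n hn Z y hZ y0 y1 y2 y3 y4 => ?_⟩
  set β : ℕ → ℝ := fun z => ∑ x ∈ S.D n, y x z with hβ
  set c : ℕ → ℝ := fun x => ∑ z ∈ Z, y x z with hc
  have β0 : ∀ z, 0 ≤ β z := fun z => sum_nonneg fun _ _ => y0 _ _
  have c0 : ∀ z, 0 ≤ c z := fun z => sum_nonneg fun _ _ => y0 _ _
  obtain ⟨B, hB, B1, B2⟩ := round_up pos (fun z => (S.b z, cl z)) β Z (fun z _ => β0 z) y2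
  obtain ⟨B', hB', C1, C2⟩ := round_up pos cl (fun x => 1 - c x) (S.D n)
    (fun x hx => sub_nonneg.2 (y1 x hx)) fun x _ => sub_le_self _ (c0 x)
  have cs : ∀ (p : ℕ → Prop) [DecidablePred p], (#{x ∈ S.D n \ B' | p x} : ℝ) + #{x ∈ B' | p x} =
      ∑ x ∈ S.D n with p x, (1 - c x) + ∑ x ∈ S.D n with p x, c x := fun p _ => by
    rw [← sum_add_distrib, ← Nat.cast_add, ← card_union_of_disjoint
      (disjoint_filter_filter sdiff_disjoint), ← filter_union, sdiff_union_of_subset hB']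
    simp
  obtain ⟨σ, σ1, σ2⟩ := hall (S.D n \ B') B (fun x => -(pos x : ℝ)) (fun x => -(pos x : ℝ))
    (fun x₀ _ => by
      simp only [neg_le_neg_iff, Nat.cast_le]
      have a1 := cs fun x => pos x ≤ pos x₀
      have a2 : ∑ x ∈ S.D n with pos x ≤ pos x₀, c x ≤ ∑ z ∈ Z with pos z ≤ pos x₀, β z := by
        simp only [hc, hβ, sum_filter]
        have e : ∀ {p : Prop} [Decidable p] (s : Finset ℕ) (f : ℕ → ℝ),
            (if p then ∑ z ∈ s, f z else 0) = ∑ z ∈ s, if p then f z else 0 := by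
          intro p _ s f; split_ifs <;> simp
        simp only [e]
        rw [sum_comm]
        refine sum_le_sum fun z _ => sum_le_sum fun x _ => ?_
        by_cases h : y x z = 0
        · simp [h]
        · split_ifs with h1 h2
          exacts [le_rfl, (h2 ((y3 x z h).trans h1)).elim, y0 _ _, le_rfl]
      have a3 := B1 (pos x₀)
      have a4 := C1 (pos x₀)
      exact_mod_cast (show (#{x ∈ S.D n \ B' | pos x ≤ pos x₀} : ℝ) ≤
        #{z ∈ B | pos z ≤ pos x₀} by linarith))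
  have fib : ∀ (Y : Finset ℕ) (a : ℕ → ℝ), Y ⊆ S.D n ∪ Z → ∑ z ∈ Y, a z * ω (cl z) =
      ∑ j ∈ (S.D n ∪ Z).image cl, ω j * ∑ z ∈ Y with cl z = j, a z := fun Y a hY => by
    rw [← sum_fiberwise_of_maps_to (fun z hz => mem_image_of_mem cl (hY hz))]
    refine sum_congr rfl fun j _ => ?_
    rw [mul_sum]
    exact sum_congr rfl fun z hz => by rw [(mem_filter.1 hz).2, mul_comm]
  have w1 : ∀ z ∈ Z, S.w z ≤ τ := fun z hz => hN' z ((le_max_right _ _).trans (hZ z hz))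
  have w2 : ∀ x ∈ S.D n, S.w x ≤ τ := fun x hx =>
    hN' x (((S.hD _ _).1 hx).symm ▸ (le_max_right _ _).trans hn)
  have J := ω1 ((S.D n ∪ Z).image cl)
  have key := hN n ((le_max_left _ _).trans hn) (S.D n \ B') σ
    (fun x hx => (S.hD _ _).1 (mem_sdiff.1 hx).1) σ1 (fun x hx => ⟨by simpa using (σ2 x hx).2,
      (le_max_left _ _).trans (hZ _ (hB (σ2 x hx).1))⟩) (fun m => by
    refine (sum_inj S.h0 (B := B.filter (S.b · = m)) (σ1.mono (coe_subset.2 (filter_subset _ _)))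
      fun x hx => mem_filter.2 ⟨(σ2 x (mem_filter.1 hx).1).1, (mem_filter.1 hx).2⟩).trans ?_
    have a1 := fib (B.filter (S.b · = m)) (fun _ => 1)
      ((filter_subset _ _).trans (hB.trans subset_union_right))
    have a2 := fib (Z.filter (S.b · = m)) β ((filter_subset _ _).trans subset_union_right)
    have a3 : ∑ z ∈ Z with S.b z = m, β z * ω (cl z) ≤ 2 * (δ / 4) := by
      refine le_trans ?_ (mul_le_mul_of_nonneg_left (y4 m) zero_le_two)
      rw [mul_sum]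
      refine sum_le_sum fun z hz => ?_
      have := mul_le_mul_of_nonneg_left (ω2 z (w1 z (mem_filter.1 hz).1)).2 (β0 z)
      linarith
    refine (sum_le_sum fun z hz => (ω2 z (w1 z (hB (mem_filter.1 hz).1))).1.trans
      (one_mul _).ge).trans ?_
    rw [a1]
    refine (sum_le_sum (g := fun j => ω j * ∑ z ∈ Z.filter (S.b · = m) with cl z = j, β z + ω j)
      fun j _ => ?_).trans (by rw [sum_add_distrib, ← a2]; linarith)
    have := mul_le_mul_of_nonneg_left (B2 (m, j)).2 (ω0 j)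
    simp only [Prod.mk.injEq] at this
    rw [filter_filter, filter_filter, sum_const, nsmul_eq_mul, mul_one]
    linarith)
  have a1 := fib (S.D n \ B') (fun _ => 1) (sdiff_subset.trans subset_union_left)
  have a2 := fib (S.D n) c subset_union_left
  have a3 : ∑ z ∈ S.D n \ B', 1 * ω (cl z) ≤ 2 * (ε / 4) := by
    refine le_trans ?_ (mul_le_mul_of_nonneg_left key zero_le_two)
    rw [mul_sum]
    exact sum_le_sum fun z hz => (one_mul _).trans_le (ω2 z (w2 z (mem_sdiff.1 hz).1)).2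
  refine (sum_le_sum fun x hx =>
    mul_le_mul_of_nonneg_left (ω2 x (w2 x hx)).1 (c0 x)).trans ?_
  rw [a2]
  refine (sum_le_sum (g := fun j => ω j * ∑ z ∈ S.D n \ B' with cl z = j, 1 + ω j)
    fun j _ => ?_).trans (by rw [sum_add_distrib, ← a1]; linarith)
  have b1 := cs fun x => cl x = j
  have b2 := (C2 j).2
  rw [sum_const, nsmul_eq_mul, mul_one, ← mul_add_one]
  exact mul_le_mul_of_nonneg_left (by linarith) (ω0 j)

end Sp

end Pool.Agent.P.MP_f6e960_lc.X
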