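import Pool.Agent.P.MP_f6e960_lc.X.Nec
import Pool.Agent.P.MP_f6e960_lc.Comb

/-!
Condition (A) bounds the overlap of every matching with small cells and orients it.
-/

namespace Pool.Agent.P.MP_f6e960_lc.X

open Finset Filter Topology Function
open scoped Classical

lemma layer_count (b : ℕ → ℕ) (F A : Finset ℕ) (hA : ∀ x ∈ A, b x ∈ F) {g : ℕ → ℕ}
    (hg : Injective g) (Γ₁ Γ₂ E : ℕ → ℕ → Prop) {d σ τ : ℝ} (hσ : 0 < σ) (hτ : 0 < τ)
    (hΓ : ∀ n ∈ F, ∀ m ∈ F, Γ₁ n m → E n m ∨ E m n) (hE : ∀ n ∈ F, (#{m ∈ F | E n m} : ℝ) ≤ d) :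
    (#{x ∈ A | g x ∈ A ∧ ¬ Γ₂ (b x) (b (g x))} : ℝ) ≤ (σ + 2 * d * τ / σ) * #A +
      (∑ n ∈ F, ∑ m ∈ F, if Γ₁ n m then 0 else
        (#{x ∈ A | b x = n} * #{x ∈ A | b x = m} / #A : ℝ)) / σ +
      (∑ n ∈ F, ∑ m ∈ F, if Γ₂ n m then 0 else
        (#{x ∈ A | b x = n} * #{x ∈ A | b x = m} / #A : ℝ)) / τ := by
  rcases A.eq_empty_or_nonempty with rfl | hne
  · simp
  have N0 : (0 : ℝ) < #A := by exact_mod_cast hne.card_pos
  set q : ℕ → ℝ := fun n => #{x ∈ A | b x = n} with hq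
  have q0 : ∀ n, 0 ≤ q n := fun n => Nat.cast_nonneg _
  have fib : ∀ φ : ℕ → ℝ, ∑ x ∈ A, φ (b x) = ∑ n ∈ F, q n * φ n := fun φ => by
    rw [← sum_fiberwise_of_maps_to hA]
    refine sum_congr rfl fun n _ => ?_
    rw [sum_congr rfl fun x hx => by rw [(mem_filter.1 hx).2], sum_const, nsmul_eq_mul]
  have tot : ∑ n ∈ F, q n = #A := by simpa using (fib fun _ => 1).symm
  set l : ℕ → ℝ := fun n => if q n < τ * #A then q n else 0 with hl
  have l0 : ∀ n, 0 ≤ l n := fun n => by simp only [hl]; split_ifs; exacts [q0 n, le_rfl]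
  have l1 : ∀ n, l n ≤ q n := fun n => by simp only [hl]; split_ifs; exacts [le_rfl, q0 n]
  have l2 : ∀ n, l n ≤ τ * #A := fun n => by
    simp only [hl]; split_ifs with h; exacts [h.le, by positivity]
  obtain ⟨Λ, hΛ⟩ : ∃ Λ, Λ = ∑ n ∈ F, l n := ⟨_, rfl⟩
  obtain ⟨P₁, hP₁⟩ : ∃ P, P = ∑ n ∈ F, ∑ m ∈ F, if Γ₁ n m then 0 else q n * q m / #A := ⟨_, rfl⟩
  obtain ⟨P₂, hP₂⟩ : ∃ P, P = ∑ n ∈ F, ∑ m ∈ F, if Γ₂ n m then 0 else q n * q m / #A := ⟨_, rfl⟩
  have a1 : ∑ n ∈ F, ∑ m ∈ F, (if E n m then q n * (τ * #A) else 0) ≤ d * τ * #A * #A := by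
    refine (sum_le_sum (g := fun n => q n * (d * τ * #A)) fun n hn => ?_).trans
      (by rw [← sum_mul, tot, mul_comm])
    rw [← sum_filter, sum_const, nsmul_eq_mul]
    have := mul_le_mul_of_nonneg_right (hE n hn) (mul_nonneg (q0 n) (mul_pos hτ N0).le)
    linarith
  have a2 : Λ * Λ ≤ P₁ * #A + 2 * (d * τ * #A * #A) := by
    rw [hΛ, hP₁, sum_mul_sum]
    refine (sum_le_sum fun n hn => sum_le_sum (g := fun m =>
      (if Γ₁ n m then 0 else q n * q m / #A) * #A + (if E n m then q n * (τ * #A) else 0) +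
        (if E m n then q m * (τ * #A) else 0)) fun m hm => ?_).trans ?_
    · have b1 := mul_le_mul (l1 n) (l2 m) (l0 m) (q0 n)
      have b2 := mul_le_mul (l1 m) (l2 n) (l0 n) (q0 m)
      have b3 := mul_le_mul (l1 n) (l1 m) (l0 m) (q0 n)
      have b4 := mul_nonneg (q0 n) (mul_pos hτ N0).le
      have b5 := mul_nonneg (q0 m) (mul_pos hτ N0).le
      by_cases h : Γ₁ n m
      · rw [if_pos h, zero_mul]
        rcases hΓ n hn m hm h with h' | h' <;> rw [if_pos h'] <;> split_ifs <;> linarith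
      · rw [if_neg h, div_mul_cancel₀ _ N0.ne']
        split_ifs <;> linarith
    · simp only [sum_add_distrib, ← sum_mul]
      rw [sum_comm (f := fun n m => if E m n then q m * (τ * #A) else 0)]
      linarith
  have a3 : Λ ≤ (σ + 2 * d * τ / σ) * #A + P₁ / σ := by
    have b1 : Λ ≤ σ * #A + Λ * Λ / (σ * #A) := by
      have Λ0 : 0 ≤ Λ := hΛ ▸ sum_nonneg fun n _ => l0 n
      rcases le_total Λ (σ * #A) with h | h
      · exact h.trans (le_add_of_nonneg_right (by positivity))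
      · refine le_trans ?_ (le_add_of_nonneg_left (by positivity))
        rw [le_div_iff₀ (by positivity)]
        exact mul_le_mul_of_nonneg_left h Λ0
    refine b1.trans ((add_le_add le_rfl (div_le_div_of_nonneg_right a2 (by positivity))).trans_eq ?_)
    field_simp
    ring
  have a4 : (#{x ∈ A | g x ∈ A ∧ q (b (g x)) < τ * #A} : ℝ) ≤ Λ := by
    have b1 := fib fun n => if q n < τ * #A then 1 else 0
    simp only [mul_ite, mul_one, mul_zero] at b1
    rw [hΛ, ← b1, sum_boole]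
    exact_mod_cast card_le_card_of_injOn g (fun x hx => by simpa using (mem_filter.1 hx).2)
      hg.injOn
  have a5 : (#{x ∈ A | g x ∈ A ∧ ¬ Γ₂ (b x) (b (g x)) ∧ τ * #A ≤ q (b (g x))} : ℝ) ≤ P₂ / τ := by
    have b1 := fib fun n => ∑ m ∈ F, if Γ₂ n m then 0 else q m / #A / τ
    have b2 : ∀ n m, 0 ≤ if Γ₂ n m then 0 else q m / #A / τ := fun n m => by
      have := q0 m
      split_ifs <;> positivity
    refine le_trans ?_ (b1.trans ?_).le
    · rw [← sum_boole]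
      refine sum_le_sum fun x _ => ?_
      split_ifs with h
      · refine le_trans ?_ (single_le_sum (fun m _ => b2 (b x) m) (hA _ h.1))
        rw [if_neg h.2.1, le_div_iff₀ hτ, le_div_iff₀ N0, one_mul]
        exact h.2.2
      · exact sum_nonneg fun m _ => b2 _ m
    · rw [hP₂, sum_div]
      refine sum_congr rfl fun n _ => ?_
      rw [mul_sum, sum_div]
      exact sum_congr rfl fun m _ => by split_ifs <;> ring
  have a6 := add_le_add (a4.trans a3) a5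
  rw [hP₁, hP₂] at a6
  refine le_trans ?_ a6
  exact_mod_cast (card_le_card fun x hx => by
    obtain ⟨h1, h2, h3⟩ := mem_filter.1 hx
    rcases lt_or_ge (q (b (g x))) (τ * #A) with h | h
    · exact mem_union_left _ (mem_filter.2 ⟨h1, h2, h⟩)
    · exact mem_union_right _ (mem_filter.2 ⟨h1, h2, h3, h⟩)).trans (card_union_le _ _)

namespace Sp

variable {S : Sp}

lemma overlap (H : CondA S.b S.w) {g : ℕ → ℕ} (hg : Injective g) {η : ℝ} (hη : 0 < η) :
    ∃ δ : ℝ, 0 < δ ∧ ∃ N, ∀ (F : Finset ℕ) (u : ℕ → ℝ) (Y : Finset ℕ), (∀ n ∈ F, N ≤ n) →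
      (∀ n, 0 ≤ u n) → (∀ x ∈ Y, S.b x ∈ F ∧ S.b (g x) ∈ F) →
      (∀ n m, ∑ x ∈ Y with S.b x = n ∧ S.b (g x) = m, S.w x ≤ δ ∧
        ∑ x ∈ Y with S.b x = n ∧ S.b (g x) = m, S.w (g x) ≤ δ) →
      ∑ x ∈ Y, min (u (S.b x) * S.w x) (u (S.b (g x)) * S.w (g x)) ≤ η * ∑ n ∈ F, u n := by
  obtain ⟨δ₁, hδ₁, N₁, H₁⟩ := H (η / 5 * (η / 5)) (by positivity)
  set τ := δ₁ * (η / 5) * (η / 10) with hτ
  have τ0 : 0 < τ := by positivity
  obtain ⟨δ₂, hδ₂, N₂, H₂⟩ := H (τ * (η / 5)) (by positivity)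
  refine ⟨δ₂ * (η / 5), by positivity, max N₁ N₂, fun F u Y hF hu hY hc => ?_⟩
  replace H₁ := H₁ F u (fun n hn => (le_max_left _ _).trans (hF n hn)) hu
  replace H₂ := H₂ F u (fun n hn => (le_max_right _ _).trans (hF n hn)) hu
  obtain ⟨c, c0, c1, c2, c3⟩ := S.kern F hu
  set Z := F.biUnion S.D with hZ
  set κ := ker S.b S.w F u with hκ
  set U := ∑ n ∈ F, u n with hU
  have hA : ∀ A ∈ Z.powerset, ∀ x ∈ A, S.b x ∈ F := fun A hA x hx => S.mem_Z.1 (mem_powerset.1 hA hx)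
  have κ0 : ∀ n ∈ F, ∀ m ∈ F, 0 ≤ κ n m := fun n hn m hm => by
    rw [c3 n hn m hm]
    exact sum_nonneg fun A _ => mul_nonneg (c0 A) (by positivity)
  have κ1 : ∀ n ∈ F, ∀ m ∈ F, κ n m = κ m n := fun n hn m hm => by
    rw [c3 n hn m hm, c3 m hm n hn]
    exact sum_congr rfl fun A _ => by ring
  have sw : ∀ X ⊆ Z, ∑ A ∈ Z.powerset, c A * #(X ∩ A) = ∑ x ∈ X, u (S.b x) * S.w x := fun X hX => by
    rw [← sum_congr rfl fun x hx => c2 x (hX hx), sum_comm]
    refine sum_congr rfl fun A _ => ?_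
    rw [← sum_filter, filter_mem_eq_inter, sum_const, nsmul_eq_mul, mul_comm]
  have κ2 : ∀ n ∈ F, ∑ m ∈ F, κ n m ≤ u n := fun n hn => by
    rw [sum_congr rfl fun m hm => c3 n hn m hm, sum_comm]
    refine (sum_le_sum (g := fun A => c A * #(S.D n ∩ A)) fun A hA' => ?_).trans ?_
    · rw [← mul_sum, ← sum_div, ← mul_sum, ← Nat.cast_sum, ← card_eq_sum_card_fiberwise
        fun x hx => mem_coe.2 (hA A hA' x hx), mul_div_assoc]
      refine mul_le_mul_of_nonneg_left ((mul_le_of_le_one_right (Nat.cast_nonneg _)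
        (div_self_le_one _)).trans ?_) (c0 A)
      exact_mod_cast card_le_card fun x hx =>
        mem_inter.2 ⟨(S.hD _ _).2 (mem_filter.1 hx).2, (mem_filter.1 hx).1⟩
    · rw [sw _ (subset_biUnion_of_mem S.D hn), sum_congr rfl fun x hx => by rw [(S.hD _ _).1 hx],
        ← mul_sum]
      exact mul_le_of_le_one_right (hu n) (S.h1 n)
  have off : ∀ δ : ℝ, 0 < δ → ∀ Γ : ℕ → ℕ → Prop, (∀ n m, Γ n m ↔ δ * min (u n) (u m) < κ n m) →
      ∑ A ∈ Z.powerset, c A * ∑ n ∈ F, ∑ m ∈ F, (if Γ n m then 0 else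
        (#{x ∈ A | S.b x = n} * #{x ∈ A | S.b x = m} / #A : ℝ)) ≤
      ∑ n ∈ F, ∑ m ∈ F, min (κ n m) (δ * min (u n) (u m)) := fun δ hδ Γ hΓ => by
    simp only [mul_sum]
    rw [sum_comm]
    refine sum_le_sum fun n hn => ?_
    rw [sum_comm]
    refine sum_le_sum fun m hm => ?_
    split_ifs with h
    · simp only [mul_zero, sum_const_zero]
      exact le_min (κ0 n hn m hm) (mul_nonneg hδ.le (le_min (hu n) (hu m)))
    · rw [← c3 n hn m hm, min_eq_left (not_lt.1 (mt (hΓ n m).2 h))]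
  obtain ⟨Γ, hΓ⟩ : ∃ Γ : ℕ → ℕ → Prop, ∀ n m, Γ n m ↔ δ₂ * min (u n) (u m) < κ n m :=
    ⟨_, fun _ _ => Iff.rfl⟩
  obtain ⟨Γ₁, hΓ₁⟩ : ∃ Γ : ℕ → ℕ → Prop, ∀ n m, Γ n m ↔ δ₁ * min (u n) (u m) < κ n m :=
    ⟨_, fun _ _ => Iff.rfl⟩
  obtain ⟨E, hE⟩ : ∃ E : ℕ → ℕ → Prop, ∀ n m, E n m ↔ δ₁ * u n < κ n m := ⟨_, fun _ _ => Iff.rfl⟩
  have p1 : ∑ x ∈ Y with Γ (S.b x) (S.b (g x)),
      min (u (S.b x) * S.w x) (u (S.b (g x)) * S.w (g x)) ≤ η / 5 * U := by
    rw [← sum_fiberwise_of_maps_to (t := F ×ˢ F) (g := fun x => (S.b x, S.b (g x)))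
      fun x hx => mem_product.2 (hY x (mem_filter.1 hx).1), sum_product, hU, mul_sum]
    refine sum_le_sum fun n hn => le_trans ?_
      (mul_le_mul_of_nonneg_left (κ2 n hn) (by positivity : 0 ≤ η / 5))
    rw [mul_sum]
    refine sum_le_sum fun m hm => ?_
    by_cases h : Γ n m
    · have b0 : ∀ (a : ℕ → ℝ) (s : ℝ), 0 ≤ s → (∀ x, 0 ≤ a x) →
          ∑ x ∈ Y with S.b x = n ∧ S.b (g x) = m, a x ≤ δ₂ * (η / 5) →
          (∀ x, S.b x = n → S.b (g x) = m →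
            min (u (S.b x) * S.w x) (u (S.b (g x)) * S.w (g x)) ≤ s * a x) →
          ∑ x ∈ Y.filter (fun x => Γ (S.b x) (S.b (g x))) with (S.b x, S.b (g x)) = (n, m),
            min (u (S.b x) * S.w x) (u (S.b (g x)) * S.w (g x)) ≤ η / 5 * (δ₂ * s) := by
        intro a s s0 a0 a1 a2
        refine (sum_le_sum (g := fun x => s * a x) fun x hx => ?_).trans ?_
        · obtain ⟨e1, e2⟩ := Prod.mk.inj (mem_filter.1 hx).2
          exact a2 x e1 e2
        rw [← mul_sum]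
        refine (mul_le_mul_of_nonneg_left ((sum_le_sum_of_subset_of_nonneg (fun x hx =>
          mem_filter.2 ⟨(mem_filter.1 (mem_filter.1 hx).1).1, Prod.mk.inj (mem_filter.1 hx).2⟩)
          fun x _ _ => a0 x).trans a1) s0).trans_eq (by ring)
      refine le_trans ?_ (mul_le_mul_of_nonneg_left ((hΓ n m).1 h).le (by positivity))
      rcases min_choice (u n) (u m) with e | e <;> rw [e]
      · exact b0 S.w _ (hu n) S.h0 (hc n m).1 fun x e1 _ => e1 ▸ min_le_left _ _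
      · exact b0 (fun x => S.w (g x)) _ (hu m) (fun x => S.h0 _) (hc n m).2
          fun x _ e2 => e2 ▸ min_le_right _ _
    · rw [sum_eq_zero fun x hx => by
        obtain ⟨e1, e2⟩ := Prod.mk.inj (mem_filter.1 hx).2
        exact (h (e1 ▸ e2 ▸ (mem_filter.1 (mem_filter.1 hx).1).2)).elim]
      exact mul_nonneg (by positivity) (κ0 n hn m hm)
  have p2 : ∑ x ∈ Y with ¬ Γ (S.b x) (S.b (g x)),
      min (u (S.b x) * S.w x) (u (S.b (g x)) * S.w (g x)) ≤
      ∑ A ∈ Z.powerset, c A * #{x ∈ A | g x ∈ A ∧ ¬ Γ (S.b x) (S.b (g x))} := by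
    refine (sum_le_sum (g := fun x => ∑ A ∈ Z.powerset, if x ∈ A ∧ g x ∈ A then c A else 0)
      fun x hx => ?_).trans ?_
    · have z1 : x ∈ Z := S.mem_Z.2 (hY x (mem_filter.1 hx).1).1
      have z2 : g x ∈ Z := S.mem_Z.2 (hY x (mem_filter.1 hx).1).2
      rcases le_total (u (S.b x) * S.w x) (u (S.b (g x)) * S.w (g x)) with h | h
      · rw [min_eq_left h, ← c2 x z1]
        refine sum_le_sum fun A _ => ?_
        by_cases h' : c A = 0
        · simp [h']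
        · by_cases h1 : x ∈ A <;> simp [h1, c1 A h' x, z2, h]
      · rw [min_eq_right h, ← c2 _ z2]
        refine sum_le_sum fun A _ => ?_
        by_cases h' : c A = 0
        · simp [h']
        · by_cases h1 : g x ∈ A <;> simp [h1, c1 A h' (g x), z1, h]
    · rw [sum_comm]
      refine sum_le_sum fun A _ => ?_
      rw [← sum_filter, sum_const, nsmul_eq_mul, mul_comm]
      refine mul_le_mul_of_nonneg_left ?_ (c0 A)
      refine Nat.cast_le.2 (card_le_card fun x hx => ?_)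
      obtain ⟨h1, h2, h3⟩ := mem_filter.1 hx
      exact mem_filter.2 ⟨h2, h3, (mem_filter.1 h1).2⟩
  have p3 := sum_le_sum fun A hA' => mul_le_mul_of_nonneg_left (layer_count S.b F A (hA A hA') hg
    Γ₁ Γ E (d := δ₁⁻¹) (σ := η / 5) (by positivity) τ0 (fun n hn m hm h => by
      rw [hΓ₁] at h
      rcases min_choice (u n) (u m) with e | e <;> rw [e] at h
      exacts [Or.inl ((hE _ _).2 h), Or.inr ((hE _ _).2 (κ1 n hn m hm ▸ h))]) fun n hn => by
      rcases (hu n).eq_or_lt with e | e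
      · rw [filter_false_of_mem fun m hm => mt (hE n m).1 (not_lt.2 ((single_le_sum
          (fun m hm => κ0 n hn m hm) hm).trans ((κ2 n hn).trans (by rw [← e, mul_zero]))))]
        simp [hδ₁.le]
      rw [← one_div, le_div_iff₀ hδ₁]
      refine le_of_mul_le_mul_right ?_ e
      rw [one_mul, mul_assoc, ← nsmul_eq_mul]
      exact (card_nsmul_le_sum _ _ _ fun m hm => ((hE _ _).1 (mem_filter.1 hm).2).le).trans
        ((sum_le_sum_of_subset_of_nonneg (filter_subset _ _) fun m hm _ => κ0 n hn m hm).trans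
          (κ2 n hn))) (c0 A)
  simp only [mul_add, sum_add_distrib, ← mul_div_assoc, ← sum_div] at p3
  have p4 : ∑ A ∈ Z.powerset, c A * ((η / 5 + 2 * δ₁⁻¹ * τ / (η / 5)) * #A) ≤ 2 * (η / 5) * U := by
    have e : η / 5 + 2 * δ₁⁻¹ * τ / (η / 5) = 2 * (η / 5) := by rw [hτ]; field_simp; ring
    rw [e, sum_congr rfl (g := fun A => 2 * (η / 5) * (c A * #(Z ∩ A))) fun A hA' => by
      rw [inter_eq_right.2 (mem_powerset.1 hA')]; ring, ← mul_sum, sw _ Subset.rfl]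
    exact mul_le_mul_of_nonneg_left (S.sum_nu F hu) (by positivity)
  have p5 := (div_le_iff₀' (by positivity : 0 < η / 5)).2
    (((off δ₁ hδ₁ Γ₁ hΓ₁).trans H₁).trans_eq (mul_assoc _ _ _))
  have p6 := (div_le_iff₀' τ0).2 (((off δ₂ hδ₂ Γ hΓ).trans H₂).trans_eq (mul_assoc _ _ _))
  rw [← sum_filter_add_sum_filter_not _ fun x => Γ (S.b x) (S.b (g x))]
  linarith

end Sp

end Pool.Agent.P.MP_f6e960_lc.X
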