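import Pool.Agent.P.MP_f6e960_lc.X.Suf
import Pool.Agent.P.MP_f6e960_lc.EU

/-!
The dyadic representation and the main equivalence.
-/

namespace Pool.Agent.P.MP_f6e960_lc.X

open Finset Filter Topology Function
open scoped Classical

lemma exists_sp (f : ℕ → ℝ) (h0 : ∀ i, 0 ≤ f i)
    (h1 : Tendsto (fun n => ∑ i ∈ range n, f i) atTop atTop)
    (h2 : Tendsto (fun n => f n / ∑ i ∈ range (n + 1), f i) atTop (𝓝 0)) :
    ∃ S : Sp, S.b = blk f ∧ S.w = wt f ∧ ∀ X : Set ℕ, S.Sm X ↔ X ∈ EU f := by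
  set F : ℕ → ℝ := fun n => ∑ i ∈ range n, f i with hF
  have hFm : Monotone F := fun _ _ h =>
    sum_le_sum_of_subset_of_nonneg (range_subset_range.2 h) fun i _ _ => h0 i
  have hF0 : ∀ n, 0 ≤ F n := fun n => sum_nonneg fun i _ => h0 i
  set b : ℕ → ℕ := fun x => Nat.log 2 ⌊F (x + 1)⌋₊ with hb
  have hb1 : ∀ x, F (x + 1) ≤ 2 * 2 ^ b x := fun x => by
    have a1 := Nat.lt_floor_add_one (F (x + 1))
    have a2 : ⌊F (x + 1)⌋₊ + 1 ≤ 2 ^ (b x + 1) := Nat.lt_pow_succ_log_self (by norm_num) _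
    have a3 : (⌊F (x + 1)⌋₊ + 1 : ℝ) ≤ 2 ^ (b x + 1) := by exact_mod_cast a2
    rw [pow_succ'] at a3; linarith
  have hb2 : ∀ x, 1 ≤ F (x + 1) → 2 ^ b x ≤ F (x + 1) := fun x h => by
    have a1 : 2 ^ b x ≤ ⌊F (x + 1)⌋₊ := Nat.pow_log_le_self 2 (Nat.floor_pos.2 h).ne'
    exact le_trans (by exact_mod_cast a1) (Nat.floor_le (hF0 _))
  have hbm : Monotone b := fun x y h => Nat.log_mono_right (Nat.floor_mono (hFm (by omega)))
  have h1' := h1.comp (tendsto_add_atTop_nat 1)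
  have hf : ∀ n, {x | b x = n}.Finite := fun n => by
    obtain ⟨x0, hx0⟩ := eventually_atTop.1 (h1'.eventually_gt_atTop (2 * 2 ^ n))
    refine (Set.finite_Iio x0).subset fun x hx => Set.mem_Iio.2 (not_le.1 fun h => ?_)
    exact (hx0 x h).not_ge ((hb1 x).trans_eq (by rw [show b x = n from hx]))
  set D : ℕ → Finset ℕ := fun n => (hf n).toFinset
  have hD : ∀ x n, x ∈ D n ↔ b x = n := fun x n => (hf n).mem_toFinset
  have hi0 : ∀ (X : Set ℕ) i, 0 ≤ X.indicator f i := fun X i =>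
    Set.indicator_nonneg (fun i _ => h0 i) i
  have hs : ∀ (X : Set ℕ) n, ∑ x ∈ D n, X.indicator (fun x => f x / (2 * 2 ^ b x)) x =
      (∑ x ∈ D n, X.indicator f x) / (2 * 2 ^ n) := fun X n => by
    rw [sum_div]
    refine sum_congr rfl fun x hx => ?_
    by_cases h : x ∈ X <;> simp [h, (hD _ _).1 hx]
  have hup : ∀ (X : Set ℕ) n (γ : ℝ), 0 ≤ γ → (∀ x, b x = n →
      ∑ i ∈ range (x + 1), X.indicator f i ≤ γ * F (x + 1)) →
      ∑ x ∈ D n, X.indicator (fun x => f x / (2 * 2 ^ b x)) x ≤ γ := fun X n γ hγ h => by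
    rcases (D n).eq_empty_or_nonempty with e | hne
    · rwa [e, sum_empty]
    have a1 := (hD _ _).1 ((D n).max'_mem hne)
    rw [hs, div_le_iff₀ (by positivity)]
    refine (sum_le_sum_of_subset_of_nonneg (fun y hy => mem_range.2
      (Nat.lt_succ_of_le ((D n).le_max' y hy))) fun i _ _ => hi0 X i).trans ((h _ a1).trans ?_)
    exact mul_le_mul_of_nonneg_left ((hb1 _).trans_eq (by rw [a1])) hγ
  have hm1 : ∀ (X : Set ℕ) n, ∑ x ∈ D n, X.indicator (fun x => f x / (2 * 2 ^ b x)) x ≤ 1 :=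
    fun X n => hup X n 1 zero_le_one fun x _ => by
      rw [one_mul]
      exact sum_le_sum fun i _ => Set.indicator_le_self' (fun _ _ => h0 _) i
  refine ⟨⟨b, fun x => f x / (2 * 2 ^ b x), D, hD, fun x => div_nonneg (h0 x) (by positivity),
    fun n => by simpa using hm1 Set.univ n, by
      refine squeeze_zero' (Eventually.of_forall fun x => div_nonneg (h0 x) (by positivity)) ?_ h2
      filter_upwards [h1'.eventually_gt_atTop 0] with x hx
      exact div_le_div_of_nonneg_left (h0 x) hx (hb1 x)⟩, rfl, rfl,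
    fun X => ⟨fun H => (?_ : Tendsto _ _ _), fun (H : Tendsto _ _ _) γ hγ => ?_⟩⟩
  · rw [← tendsto_add_atTop_iff_nat 1]
    refine tendsto_order.2 ⟨fun a ha => Eventually.of_forall fun n => ha.trans_le
      (div_nonneg (sum_nonneg fun i _ => hi0 X i) (hF0 _)), fun a ha => ?_⟩
    obtain ⟨n0, hn0⟩ := eventually_atTop.1 (H (a / 8) (by positivity))
    filter_upwards [h1'.eventually_ge_atTop 1,
      h1'.eventually_gt_atTop (2 * 2 ^ n0 / (a / 2))] with x hx1 hx2
    change 1 ≤ F (x + 1) at hx1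
    change _ < F (x + 1) at hx2
    rw [div_lt_iff₀ (half_pos ha)] at hx2
    rw [div_lt_iff₀ (by linarith), ← sum_fiberwise_of_maps_to (t := range (b x + 1)) (g := b)
      fun y hy => mem_range.2 (Nat.lt_succ_of_le (hbm (Nat.le_of_lt_succ (mem_range.1 hy))))]
    have a1 : ∀ n, ∑ y ∈ (range (x + 1)).filter (b · = n), X.indicator f y ≤
        (if n < n0 then 2 * 2 ^ n else 0) + a / 8 * (2 * 2 ^ n) := fun n => by
      refine (sum_le_sum_of_subset_of_nonneg (t := D n) (fun y hy => (hD _ _).2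
        (mem_filter.1 hy).2) fun i _ _ => hi0 X i).trans ?_
      split_ifs with h
      · have := hm1 X n
        rw [hs, div_le_iff₀ (by positivity)] at this
        have : 0 ≤ a / 8 * (2 * 2 ^ n) := by positivity
        linarith
      · have := hn0 n (not_lt.1 h)
        rwa [hs, div_le_iff₀ (by positivity), ← zero_add (a / 8 * _)] at this
    refine (sum_le_sum fun n _ => a1 n).trans_lt ?_
    rw [sum_add_distrib, ← sum_filter, ← mul_sum, ← mul_sum, ← mul_sum,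
      geom_sum_eq (by norm_num) (b x + 1)]
    have a2 : ∑ n ∈ (range (b x + 1)).filter (· < n0), (2 : ℝ) ^ n ≤ 2 ^ n0 := by
      refine (sum_le_sum_of_subset_of_nonneg (t := range n0) (fun n hn => mem_range.2
        (mem_filter.1 hn).2) fun _ _ _ => by positivity).trans ?_
      rw [geom_sum_eq (by norm_num)]; linarith
    have a3 := mul_le_mul_of_nonneg_left (hb2 x hx1) ha.le
    rw [pow_succ]
    change _ < a * F (x + 1)
    nlinarith
  · obtain ⟨x0, hx0⟩ := eventually_atTop.1 ((((tendsto_add_atTop_iff_nat 1).2 H).eventually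
      (ge_mem_nhds hγ)).and (h1'.eventually_gt_atTop 0))
    filter_upwards [eventually_gt_atTop (b x0)] with n hn
    refine hup X n γ hγ.le fun x hx => ?_
    have := hx0 x (not_lt.1 fun h' => by have := hbm h'.le; omega)
    exact (div_le_iff₀ this.2).1 this.1

namespace Sp

variable (S : Sp)

lemma mass_eq (n : ℕ) (A : Set ℕ) : mass S.b S.w n A = ∑ x ∈ S.D n, A.indicator S.w x := by
  rw [mass, sum_indicator_eq_sum_filter, ← finsum_mem_coe_finset]
  exact finsum_mem_congr (by ext x; simp [S.hD]) fun _ _ => rfl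

lemma sm_iff (A : Set ℕ) : S.Sm A ↔ Tendsto (fun n => mass S.b S.w n A) atTop (𝓝 0) := by
  simp only [mass_eq]
  refine ⟨fun H => tendsto_order.2 ⟨fun a ha => Eventually.of_forall fun n => ha.trans_le
    (sum_nonneg fun x _ => Set.indicator_nonneg (fun x _ => S.h0 x) x), fun a ha =>
    (H _ (half_pos ha)).mono fun n hn => hn.trans_lt (half_lt_self ha)⟩,
    fun H γ hγ => H.eventually (ge_mem_nhds hγ)⟩

theorem main : (∃ φ : ℕ ≃ ℕ, IncInv {B | ∃ A, S.Sm A ∧ B = φ '' A}) ↔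
    CondA S.b S.w ∧ CondB S.b S.w := by
  refine ⟨fun ⟨φ, h⟩ => ?_, fun ⟨HA, HB⟩ => ?_⟩
  · have H : S.Shift φ := fun X σ h1 h2 h3 => by
      obtain ⟨A, hA, e⟩ := h _ ⟨_, h3, rfl⟩ (φ '' X) fun n =>
        Set.ncard_le_ncard_of_injOn (fun y => φ (σ (φ.symm y))) (by
          rintro _ ⟨⟨x, hx, rfl⟩, h4⟩
          simp only [Equiv.symm_apply_apply]
          exact ⟨⟨_, ⟨x, hx, rfl⟩, rfl⟩, (h2 x hx).trans_lt h4⟩) (by
          rintro _ ⟨⟨x, hx, rfl⟩, -⟩ _ ⟨⟨y, hy, rfl⟩, -⟩ e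
          simp only [Equiv.symm_apply_apply, EmbeddingLike.apply_eq_iff_eq] at e
          rw [h1 hx hy e]) ((Set.finite_Iio n).inter_of_right _)
      rwa [(Set.image_injective.2 φ.injective) e]
    exact ⟨condA H, condB H⟩
  obtain ⟨ι, T, hT⟩ := exists_sys S.b S.D S.hD S.w S.h0 S.h1 S.h2
  have hT' : ∀ X, T.Small X ↔ S.Sm X := hT
  obtain ⟨φ, hφ⟩ := Sys.Split.order (S := T) fun g hg => by
    simpa only [hT'] using split HA HB hg
  refine ⟨φ, ?_⟩
  rintro _ ⟨B, hB, rfl⟩ C hC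
  refine ⟨φ ⁻¹' C, (hT' _).1 (hφ B _ ((hT' _).2 hB) fun n => ?_), (φ.image_preimage C).symm⟩
  have e : ∀ X : Set ℕ, (X ∩ {y | φ y < n}).ncard = (φ '' X ∩ Set.Iio n).ncard := fun X => by
    rw [← Set.ncard_image_of_injective _ φ.injective]
    exact congrArg _ (Set.image_inter_preimage φ X (Set.Iio n))
  rw [e, e, φ.image_preimage]
  exact hC n

end Sp

theorem rep_blk (f : ℕ → ℝ) (h0 : ∀ i, 0 ≤ f i)
    (h1 : Tendsto (fun n => ∑ i ∈ range n, f i) atTop atTop)
    (h2 : Tendsto (fun n => f n / ∑ i ∈ range (n + 1), f i) atTop (𝓝 0)) :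
    Rep f (blk f) (wt f) := by
  obtain ⟨S, e1, e2, h⟩ := exists_sp f h0 h1 h2
  rw [← e1, ← e2]
  refine ⟨fun n => (S.D n).finite_toSet.subset fun x hx => (S.hD x n).2 hx, S.h0, fun n => ?_, S.h2,
    fun A => (h A).symm.trans (S.sm_iff A)⟩
  simpa [S.mass_eq] using S.h1 n

theorem iff_of_rep {f : ℕ → ℝ} {b : ℕ → ℕ} {w : ℕ → ℝ} (h : Rep f b w) :
    (∃ φ : ℕ ≃ ℕ, IncInv {B | ∃ A ∈ EU f, B = φ '' A}) ↔ CondA b w ∧ CondB b w := by
  obtain ⟨a1, a2, a3, a4, a5⟩ := h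
  let S : Sp := ⟨b, w, fun n => (a1 n).toFinset, fun x n => (a1 n).mem_toFinset, a2, fun n => by
    have := a3 n
    rwa [mass, Set.inter_univ, finsum_mem_eq_finite_toFinset_sum _ (a1 n)] at this, a4⟩
  have e : ∀ A, A ∈ EU f ↔ S.Sm A := fun A => (a5 A).trans (S.sm_iff A).symm
  simpa only [e] using S.main

end Pool.Agent.P.MP_f6e960_lc.X
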