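import Pool.Agent.P.MP_f6e960_lc.X.Frac

/-!
A shift-invariant order forces conditions (A) and (B).
-/

namespace Pool.Agent.P.MP_f6e960_lc.X

open Finset Filter Topology Function
open scoped Classical

namespace Sp

variable (S : Sp)

lemma mem_Z {F : Finset ℕ} {x : ℕ} : x ∈ F.biUnion S.D ↔ S.b x ∈ F := by
  simp [mem_biUnion, S.hD]

lemma sum_Z (F : Finset ℕ) (a : ℕ → ℝ) : ∑ x ∈ F.biUnion S.D, a x = ∑ n ∈ F, ∑ x ∈ S.D n, a x :=
  sum_biUnion fun _ _ _ _ h => Finset.disjoint_left.2 fun _ h1 h2 =>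
    h (((S.hD _ _).1 h1).symm.trans ((S.hD _ _).1 h2))

lemma sum_nu (F : Finset ℕ) {u : ℕ → ℝ} (hu : ∀ n, 0 ≤ u n) :
    ∑ x ∈ F.biUnion S.D, u (S.b x) * S.w x ≤ ∑ n ∈ F, u n := by
  rw [sum_Z]
  refine sum_le_sum fun n _ => ?_
  rw [sum_congr rfl fun x hx => by rw [(S.hD _ _).1 hx], ← mul_sum]
  exact mul_le_of_le_one_right (hu n) (S.h1 n)

lemma kern (F : Finset ℕ) {u : ℕ → ℝ} (hu : ∀ n, 0 ≤ u n) :
    ∃ c : Finset ℕ → ℝ, (∀ A, 0 ≤ c A) ∧
      (∀ A, c A ≠ 0 → ∀ x ∈ A, ∀ z ∈ F.biUnion S.D,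
        u (S.b x) * S.w x ≤ u (S.b z) * S.w z → z ∈ A) ∧
      (∀ x ∈ F.biUnion S.D, ∑ A ∈ (F.biUnion S.D).powerset, (if x ∈ A then c A else 0) =
        u (S.b x) * S.w x) ∧
      ∀ n ∈ F, ∀ m ∈ F, ker S.b S.w F u n m = ∑ A ∈ (F.biUnion S.D).powerset,
        c A * (#{x ∈ A | S.b x = n} * #{x ∈ A | S.b x = m} / #A) := by
  obtain ⟨c, c0, c1, c2, c3⟩ := lay (F.biUnion S.D) (fun x => u (S.b x) * S.w x)
    fun x => mul_nonneg (hu _) (S.h0 x)
  refine ⟨c, c0, c1, c2, fun n hn m hm => ?_⟩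
  rw [← c3 (fun A => #{x ∈ A | S.b x = n} * #{x ∈ A | S.b x = m} / #A) (by simp), ker]
  congr 1
  funext t
  have e : ∀ k ∈ F, cnt S.b S.w (u k) k t =
      #{x ∈ (F.biUnion S.D).filter fun x => t < u (S.b x) * S.w x | S.b x = k} := fun k hk => by
    rw [cnt, ← Set.ncard_coe_finset]
    congr 2
    ext x
    simp only [Set.mem_ofPred_eq, coe_filter, mem_filter, mem_Z]
    exact ⟨fun ⟨h1, h2⟩ => ⟨⟨h1 ▸ hk, h1 ▸ h2⟩, h1⟩, fun ⟨⟨_, h2⟩, h1⟩ => ⟨h1, h1 ▸ h2⟩⟩
  rw [e n hn, e m hm, sum_congr rfl e, card_eq_sum_card_fiberwise (f := S.b) (t := F)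
    fun x hx => mem_coe.2 (S.mem_Z.1 (mem_filter.1 hx).1)]
  push_cast
  rfl

lemma kernW (F : Finset ℕ) {u : ℕ → ℝ} (hu : ∀ n, 0 ≤ u n) :
    ∃ W : ℕ → ℕ → ℝ, (∀ x z, 0 ≤ W x z) ∧ (∀ x z, W x z = W z x) ∧
      (∀ x ∈ F.biUnion S.D, ∑ z ∈ F.biUnion S.D, W x z = u (S.b x) * S.w x) ∧
      (∀ n ∈ F, ∀ m ∈ F, ∑ x ∈ S.D n, ∑ z ∈ S.D m, W x z = ker S.b S.w F u n m) ∧
      ∀ R : ℝ, 0 < R → ∀ z, ∑ x ∈ F.biUnion S.D,
        (if R * (u (S.b x) * S.w x) < u (S.b z) * S.w z then W x z else 0) ≤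
          u (S.b z) * S.w z / R := by
  obtain ⟨c, c0, c1, c2, c3⟩ := S.kern F hu
  set Z := F.biUnion S.D
  have cnt' : ∀ (A Y : Finset ℕ) (a : ℝ), ∑ z ∈ Y, (if z ∈ A then a else 0) = #(Y ∩ A) * a :=
    fun A Y a => by rw [← sum_filter, filter_mem_eq_inter, sum_const, nsmul_eq_mul]
  refine ⟨fun x z => ∑ A ∈ Z.powerset, if x ∈ A then if z ∈ A then c A / #A else 0 else 0,
    fun x z => sum_nonneg fun A _ => by have := c0 A; split_ifs <;> positivity,
    fun x z => sum_congr rfl fun A _ => by split_ifs <;> rfl, fun x hx => ?_,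
    fun n hn m hm => ?_, fun R hR z => ?_⟩
  · rw [sum_comm, ← c2 x hx]
    refine sum_congr rfl fun A hA => ?_
    split_ifs with h
    · have : (#A : ℝ) ≠ 0 := by exact_mod_cast (card_pos.2 ⟨x, h⟩).ne'
      rw [cnt', inter_eq_right.2 (mem_powerset.1 hA)]
      field_simp
    · simp
  · rw [c3 n hn m hm, sum_congr rfl fun x _ => sum_comm, sum_comm]
    refine sum_congr rfl fun A _ => ?_
    have e : ∀ k, S.D k ∩ A = A.filter (S.b · = k) := fun k => by
      ext x; simp [S.hD, and_comm]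
    rw [sum_congr rfl (g := fun x => if x ∈ A then #(S.D m ∩ A) * (c A / #A) else 0)
      fun x _ => by split_ifs; exacts [cnt' _ _ _, by simp], cnt', e, e]
    ring
  · rw [← sum_filter]
    set Y := Z.filter fun x => R * (u (S.b x) * S.w x) < u (S.b z) * S.w z
    rcases Y.eq_empty_or_nonempty with e | hne
    · rw [e, sum_empty]; exact div_nonneg (mul_nonneg (hu _) (S.h0 _)) hR.le
    obtain ⟨x0, hx0, hmax⟩ := Y.exists_max_image (fun x => u (S.b x) * S.w x) hne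
    obtain ⟨a1, a2⟩ := mem_filter.1 hx0
    refine le_trans ?_ ((le_div_iff₀' hR).2 a2.le)
    rw [← c2 x0 a1, sum_comm]
    refine sum_le_sum fun A _ => ?_
    have a3 := c0 A
    refine (sum_le_sum (g := fun x => if x ∈ A then c A / #A else 0) fun x _ => by
      split_ifs <;> first | positivity | rfl).trans ?_
    rw [cnt']
    split_ifs with h
    · have : (0 : ℝ) < #A := by exact_mod_cast card_pos.2 ⟨x0, h⟩
      rw [← mul_div_assoc, div_le_iff₀ this, mul_comm]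
      exact mul_le_mul_of_nonneg_left (by exact_mod_cast card_le_card inter_subset_right) a3
    · by_cases h' : c A = 0
      · simp [h']
      · rw [disjoint_iff_inter_eq_empty.1 (Finset.disjoint_left.2 fun x hx hA =>
          h (c1 A h' x hA x0 a1 (hmax x hx)))]
        simp

variable {S} {pos : ℕ → ℕ}

lemma condA (H : S.Shift pos) : CondA S.b S.w := by
  intro η hη
  set R := 4 / η + 1 with hR
  have R1 : 1 ≤ R := le_add_of_nonneg_left (by positivity)
  have R0 : 0 < R := by linarith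
  obtain ⟨δ, hδ, N, hN⟩ := frac H (ε := η / (4 * R)) (by positivity)
  refine ⟨δ, hδ, N, fun F u hF hu => ?_⟩
  obtain ⟨W, W0, W1, W2, W3, W4⟩ := S.kernW F hu
  set Z := F.biUnion S.D with hZ
  set ν : ℕ → ℝ := fun x => u (S.b x) * S.w x with hν
  have ν0 : ∀ x, 0 ≤ ν x := fun x => mul_nonneg (hu _) (S.h0 x)
  set κ : ℕ → ℕ → ℝ := fun n m => ∑ x ∈ S.D n, ∑ z ∈ S.D m, W x z with hκ
  have κ0 : ∀ n m, 0 ≤ κ n m := fun n m => sum_nonneg fun _ _ => sum_nonneg fun _ _ => W0 _ _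
  have κ1 : ∀ n m, κ n m = κ m n := fun n m =>
    sum_comm.trans (sum_congr rfl fun _ _ => sum_congr rfl fun _ _ => W1 _ _)
  have m0 : ∀ n m, 0 ≤ min (κ n m) (δ * min (u n) (u m)) := fun n m =>
    le_min (κ0 n m) (mul_nonneg hδ.le (le_min (hu n) (hu m)))
  set V : ℕ → ℕ → ℝ := fun x z => min (κ (S.b x) (S.b z)) (δ * min (u (S.b x)) (u (S.b z))) /
    κ (S.b x) (S.b z) * W x z with hV
  have V0 : ∀ x z, 0 ≤ V x z := fun x z => mul_nonneg (div_nonneg (m0 _ _) (κ0 _ _)) (W0 _ _)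
  have V1 : ∀ x z, V x z ≤ W x z := fun x z =>
    mul_le_of_le_one_left (W0 _ _) (div_le_one_of_le₀ (min_le_left _ _) (κ0 _ _))
  have V2 : ∀ x z, V x z = V z x := fun x z => by simp only [hV, κ1 (S.b x), W1 x, min_comm]
  have V3 : ∀ n m, ∑ x ∈ S.D n, ∑ z ∈ S.D m, V x z = min (κ n m) (δ * min (u n) (u m)) := by
    intro n m
    rw [sum_congr rfl (g := fun x => min (κ n m) (δ * min (u n) (u m)) / κ n m * ∑ z ∈ S.D m, W x z)
      fun x hx => by
        rw [mul_sum]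
        exact sum_congr rfl fun z hz => by simp only [hV, (S.hD _ _).1 hx, (S.hD _ _).1 hz],
      ← mul_sum]
    rcases (κ0 n m).eq_or_lt with e | e
    · exact (mul_eq_zero_of_right _ e.symm).trans (le_antisymm (m0 n m) ((min_le_left _ _).trans e.ge))
    · exact div_mul_cancel₀ _ e.ne'
  set G : ℕ → ℕ → ℝ := fun x z =>
    if pos z ≤ pos x ∧ ν z ≤ R * ν x ∧ ν x ≤ R * ν z then V x z else 0 with hG
  have G0 : ∀ x z, 0 ≤ G x z := fun x z => by simp only [hG]; split_ifs; exacts [V0 _ _, le_rfl]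
  have G1 : ∀ x z, G x z ≤ V x z := fun x z => by simp only [hG]; split_ifs; exacts [le_rfl, V0 _ _]
  have Wle : ∀ x ∈ Z, ∀ z ∈ Z, W x z ≤ ν x := fun x hx z hz =>
    (single_le_sum (fun z _ => W0 x z) hz).trans (W2 x hx).le
  have main : ∀ n ∈ F, ∑ x ∈ S.D n, ∑ z ∈ Z, G x z ≤ η / 4 * u n := by
    intro n hn
    have hD : S.D n ⊆ Z := subset_biUnion_of_mem S.D hn
    set y : ℕ → ℕ → ℝ := fun x z => G x z / max (ν x) (ν z) with hy
    have y0 : ∀ x z, 0 ≤ y x z := fun x z => div_nonneg (G0 _ _) (le_max_of_le_left (ν0 x))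
    have y1 : ∀ x z a, 0 ≤ a → a ≤ max (ν x) (ν z) → y x z * a ≤ V x z := fun x z a a0 a1 => by
      rw [hy, div_mul_eq_mul_div, mul_div_assoc]
      exact (mul_le_of_le_one_right (G0 _ _) (div_le_one_of_le₀ a1 (a0.trans a1))).trans (G1 _ _)
    have y2 : ∀ x ∈ Z, ∀ z ∈ Z, ν x = 0 ∨ ν z = 0 → y x z = 0 := fun x hx z hz h => by
      have : G x z = 0 := le_antisymm (((G1 _ _).trans (V1 _ _)).trans (h.elim
        (fun h => (Wle x hx z hz).trans h.le) fun h => (W1 x z).trans_le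
          ((Wle z hz x hx).trans h.le))) (G0 _ _)
      simp [hy, this]
    have key := hN n (hF n hn) Z y (fun z hz => hF _ (S.mem_Z.1 hz)) y0 (fun x hx => by
      rcases (ν0 x).eq_or_lt with e | e
      · rw [sum_eq_zero fun z hz => y2 x (hD hx) z hz (Or.inl e.symm)]; exact zero_le_one
      refine le_of_mul_le_mul_right ?_ e
      rw [sum_mul, one_mul]
      exact (sum_le_sum fun z _ => (y1 x z _ e.le (le_max_left _ _)).trans (V1 _ _)).trans
        (W2 x (hD hx)).le) (fun z hz => by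
      rcases (ν0 z).eq_or_lt with e | e
      · rw [sum_eq_zero fun x hx => y2 x (hD hx) z hz (Or.inr e.symm)]; exact zero_le_one
      refine le_of_mul_le_mul_right ?_ e
      rw [sum_mul, one_mul]
      exact (sum_le_sum fun x _ => (y1 x z _ e.le (le_max_right _ _)).trans
        ((V1 _ _).trans_eq (W1 _ _))).trans ((sum_le_sum_of_subset_of_nonneg hD
          fun x _ _ => W0 z x).trans (W2 z hz).le)) (fun x z h => by
      by_contra h'
      exact h (by simp [hy, hG, h'])) (fun m => by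
      rcases (hu m).eq_or_lt with e | e
      · rw [sum_eq_zero fun z hz => by
          rw [sum_eq_zero fun x hx => y2 x (hD hx) z (mem_filter.1 hz).1 (Or.inr (by
            simp only [hν, (mem_filter.1 hz).2, ← e, zero_mul])), zero_mul]]
        exact hδ.le
      refine le_of_mul_le_mul_right ?_ e
      refine le_trans ?_ ((V3 n m).trans_le ((min_le_right _ _).trans
        (mul_le_mul_of_nonneg_left (min_le_right _ _) hδ.le)))
      rw [sum_mul, sum_comm]
      refine (sum_le_sum (g := fun z => ∑ x ∈ S.D n, V x z) fun z hz => ?_).trans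
        (sum_le_sum_of_subset_of_nonneg (fun z hz => (S.hD _ _).2 (mem_filter.1 hz).2)
          fun z _ _ => sum_nonneg fun x _ => V0 x z)
      rw [mul_assoc, sum_mul]
      refine sum_le_sum fun x _ => y1 x z _ (mul_nonneg (S.h0 z) e.le) (le_max_of_le_right ?_)
      simp only [hν, (mem_filter.1 hz).2, mul_comm, le_refl])
    have e : η / 4 * u n = R * u n * (η / (4 * R)) := by field_simp
    rw [e]
    refine le_trans ?_ (mul_le_mul_of_nonneg_left key (mul_nonneg R0.le (hu n)))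
    rw [mul_sum]
    refine sum_le_sum fun x hx => ?_
    rw [sum_mul, mul_sum]
    refine sum_le_sum fun z hz => ?_
    have e1 : R * u n * (y x z * S.w x) = y x z * (R * ν x) := by
      simp only [hν, (S.hD _ _).1 hx]; ring
    rw [e1]
    by_cases h : pos z ≤ pos x ∧ ν z ≤ R * ν x ∧ ν x ≤ R * ν z
    · rcases (le_max_of_le_left (ν0 x) : 0 ≤ max (ν x) (ν z)).eq_or_lt with e2 | e2
      · have := (Wle x (hD hx) z hz).trans ((le_max_left _ _).trans e2.ge)
        exact (((G1 _ _).trans (V1 _ _)).trans this).trans (mul_nonneg (y0 _ _)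
          (mul_nonneg R0.le (ν0 x)))
      · rw [← div_mul_cancel₀ (G x z) e2.ne']
        exact mul_le_mul_of_nonneg_left (max_le (le_mul_of_one_le_left (ν0 x) R1) h.2.1) (y0 _ _)
    · simp only [hG, if_neg h]
      exact mul_nonneg (y0 _ _) (mul_nonneg R0.le (ν0 x))
  have t1 : ∑ x ∈ Z, ∑ z ∈ Z, G x z ≤ η / 4 * ∑ n ∈ F, u n := by
    rw [hZ, sum_Z, mul_sum]; exact sum_le_sum main
  have t2 : ∑ z ∈ Z, ∑ x ∈ Z, (if R * ν x < ν z then W x z else 0) ≤ η / 4 * ∑ n ∈ F, u n := by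
    refine (sum_le_sum fun z _ => W4 R R0 z).trans ?_
    rw [← sum_div, div_le_iff₀ R0]
    have a1 := S.sum_nu F hu
    have a2 : η / 4 * (∑ n ∈ F, u n) * R = (1 + η / 4) * ∑ n ∈ F, u n := by
      rw [hR]; field_simp
    have a3 : 0 ≤ η / 4 * ∑ n ∈ F, u n := mul_nonneg (by positivity) (sum_nonneg fun n _ => hu n)
    rw [a2]
    linarith
  have t3 : ∑ n ∈ F, ∑ m ∈ F, min (ker S.b S.w F u n m) (δ * min (u n) (u m)) =
      ∑ x ∈ Z, ∑ z ∈ Z, V x z := by
    rw [hZ, sum_Z]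
    refine sum_congr rfl fun n hn => ?_
    rw [sum_congr rfl fun x _ => S.sum_Z F _, sum_comm]
    exact sum_congr rfl fun m hm => by rw [V3, ← W3 n hn m hm]
  have t4 : ∑ x ∈ Z, ∑ z ∈ Z, V x z ≤ ∑ x ∈ Z, ∑ z ∈ Z, ((if R * ν x < ν z then W x z else 0) +
      (if R * ν z < ν x then W z x else 0) + G x z + G z x) := by
    refine sum_le_sum fun x _ => sum_le_sum fun z _ => ?_
    have := V1 x z
    have := W0 x z
    have := G0 x z
    have := G0 z x
    rw [← W1 x z]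
    split_ifs with h1 h2 h2
    · linarith
    · linarith
    · linarith
    rcases le_total (pos z) (pos x) with h | h
    · have : G x z = V x z := if_pos ⟨h, not_lt.1 h1, not_lt.1 h2⟩
      linarith
    · have : G z x = V x z := (if_pos ⟨h, not_lt.1 h2, not_lt.1 h1⟩).trans (V2 z x)
      linarith
  simp only [sum_add_distrib] at t4
  rw [sum_comm (f := fun x z => if R * ν x < ν z then W x z else 0),
    sum_comm (f := fun x z => G z x)] at t4
  linarith

lemma condB (H : S.Shift pos) : CondB S.b S.w := by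
  intro η hη
  obtain ⟨δ, hδ, N, hN⟩ := unif H (half_pos hη)
  refine ⟨δ, hδ, fun L => ?_⟩
  obtain ⟨δ', hδ', N', hN'⟩ := unif H (ε := η / 2 / (|L| + 1)) (by positivity)
  refine ⟨δ' / δ, by positivity, max N N', fun n hn C B v hC hB hm hv hL hc => ?_⟩
  obtain ⟨σ, σ1, σ2⟩ := hall (C.filter fun x => 0 < S.w x) B S.w (fun z => v (S.b z) * S.w z)
    fun x hx => (card_le_card (filter_subset_filter _ (filter_subset _ _))).trans
      (hc _ (mem_filter.1 hx).2)
  set C' := C.filter fun x => 0 < S.w x with hC'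
  have ms : ∀ Y ⊆ C', ∀ m, ∑ x ∈ Y with S.b (σ x) = m, S.w (σ x) ≤ δ := fun Y hY m =>
    (sum_inj S.h0 (σ1.mono (coe_subset.2 ((filter_subset _ _).trans hY))) fun x hx =>
      mem_filter.2 ⟨(σ2 x (hY (mem_filter.1 hx).1)).1, (mem_filter.1 hx).2⟩).trans (hm m)
  have a1 := hN n ((le_max_left _ _).trans hn) (C'.filter fun x => pos (σ x) ≤ pos x) σ
    (fun x hx => hC x (mem_filter.1 (mem_filter.1 hx).1).1) (σ1.mono (coe_subset.2
      (filter_subset _ _))) (fun x hx => ⟨(mem_filter.1 hx).2, (le_max_left _ _).trans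
        (hB _ (σ2 x (mem_filter.1 hx).1).1)⟩) (ms _ (filter_subset _ _))
  set C2 := C'.filter fun x => ¬ pos (σ x) ≤ pos x with hC2
  have a2 : ∀ m ∈ B.image S.b, ∑ x ∈ C2 with S.b (σ x) = m, S.w x ≤ v m * (η / 2 / (|L| + 1)) := by
    intro m hm'
    set Y := C2.filter fun x => S.b (σ x) = m with hY
    have hYC : Y ⊆ C' := (filter_subset _ _).trans (filter_subset _ _)
    have σY : Set.InjOn σ Y := σ1.mono (coe_subset.2 hYC)
    have b1 : ∑ x ∈ Y, S.w x ≤ v m * ∑ x ∈ Y, S.w (σ x) := by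
      rw [mul_sum]
      exact sum_le_sum fun x hx => (mem_filter.1 hx).2 ▸ (σ2 x (hYC hx)).2
    have inv : ∀ x ∈ Y, invFunOn σ Y (σ x) = x := fun x hx => σY.leftInvOn_invFunOn hx
    obtain ⟨z0, hz0, rfl⟩ := mem_image.1 hm'
    refine b1.trans (mul_le_mul_of_nonneg_left ?_ (hv _).1)
    rw [← sum_image σY]
    refine hN' _ ((le_max_right _ _).trans (hB _ hz0)) _ (invFunOn σ Y) (fun z hz => ?_)
      (fun z hz z' hz' e => ?_) (fun z hz => ?_) fun m' => ?_
    · obtain ⟨x, hx, rfl⟩ := mem_image.1 hz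
      exact (mem_filter.1 hx).2
    · obtain ⟨x, hx, rfl⟩ := mem_image.1 hz
      obtain ⟨x', hx', rfl⟩ := mem_image.1 hz'
      rw [inv x hx, inv x' hx'] at e
      rw [e]
    · obtain ⟨x, hx, rfl⟩ := mem_image.1 hz
      rw [inv x hx, hC x (mem_filter.1 (hYC hx)).1]
      exact ⟨(not_le.1 (mem_filter.1 (mem_filter.1 hx).1).2).le, (le_max_right _ _).trans hn⟩
    · refine (sum_le_sum_of_subset_of_nonneg (filter_subset _ _) fun _ _ _ => S.h0 _).trans ?_
      rw [sum_image σY, sum_congr rfl fun x hx => by rw [inv x hx]]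
      refine b1.trans ((mul_le_mul (hv _).2 (ms C2 (filter_subset _ _) _)
        (sum_nonneg fun _ _ => S.h0 _) (by positivity)).trans_eq (div_mul_cancel₀ _ hδ.ne'))
  have a3 : ∑ x ∈ C2, S.w x ≤ η / 2 := by
    rw [← sum_fiberwise_of_maps_to (t := B.image S.b) (g := fun x => S.b (σ x))
      fun x hx => mem_image_of_mem _ (σ2 x (mem_filter.1 hx).1).1]
    refine (sum_le_sum a2).trans ?_
    rw [← sum_mul, ← mul_div_assoc, div_le_iff₀ (by positivity), mul_comm]
    exact mul_le_mul_of_nonneg_left (by linarith [le_abs_self L]) (half_pos hη).le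
  rw [← sum_filter_of_ne (p := fun x => 0 < S.w x) fun x _ h => (S.h0 x).lt_of_ne' h,
    ← sum_filter_add_sum_filter_not _ fun x => pos (σ x) ≤ pos x]
  linarith

end Sp

end Pool.Agent.P.MP_f6e960_lc.X
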