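import Pool.Agent.P.MP_f6e960_lc.X.Layer

/-!
Conditions (A) and (B) split every involution.
-/

namespace Pool.Agent.P.MP_f6e960_lc.X

open Finset Filter Topology Function
open scoped Classical

namespace Sp

variable (S : Sp) (g : ℕ → ℕ)

/-- Both points of the pair have positive weight. -/
def Pos (x : ℕ) : Prop := 0 < S.w x ∧ 0 < S.w (g x)

/-- Mass of the points with the same pair of blocks and a larger ratio. -/
noncomputable def cum (x : ℕ) : ℝ := ∑ y ∈ S.D (S.b x) with S.Pos g y ∧ S.b (g y) = S.b (g x) ∧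
  S.w (g x) / S.w x ≤ S.w (g y) / S.w y, S.w y

/-- Mass sent from block `n` to block `m`. -/
noncomputable def sent (n m : ℕ) : ℝ := ∑ y ∈ S.D n with S.b (g y) = m, S.w (g y)

/-- Mass of a set in a block. -/
noncomputable def ms (n : ℕ) (p : ℕ → Prop) : ℝ := ∑ x ∈ S.D n with p x, S.w x

variable {S g}

lemma sent_nonneg (n m : ℕ) : 0 ≤ S.sent g n m := sum_nonneg fun _ _ => S.h0 _

lemma cum_le {x : ℕ} (hx : S.Pos g x) :
    S.w (g x) * S.cum g x ≤ S.sent g (S.b x) (S.b (g x)) * S.w x := by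
  rw [← div_le_iff₀ hx.1, mul_div_right_comm, cum, mul_sum]
  refine (sum_le_sum (g := fun y => S.w (g y)) fun y hy => ?_).trans
    (sum_le_sum_of_subset_of_nonneg (fun y hy => mem_filter.2
      ⟨(mem_filter.1 hy).1, (mem_filter.1 hy).2.2.1⟩) fun _ _ _ => S.h0 _)
  obtain ⟨-, h1, -, h2⟩ := mem_filter.1 hy
  exact (le_div_iff₀ h1.1).1 h2

lemma cell_le {Y : Finset ℕ} {n m : ℕ} {δ : ℝ} (hδ : 0 ≤ δ)
    (h : ∀ x ∈ Y, S.b x = n ∧ S.b (g x) = m ∧ S.Pos g x ∧ S.cum g x < δ) :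
    ∑ x ∈ Y, S.w x ≤ δ := by
  rcases Y.eq_empty_or_nonempty with rfl | hne
  · simpa using hδ
  obtain ⟨x, hx, hmin⟩ := Y.exists_min_image (fun x => S.w (g x) / S.w x) hne
  obtain ⟨a1, a2, -, a3⟩ := h x hx
  refine le_trans (sum_le_sum_of_subset_of_nonneg (fun y hy => ?_) fun _ _ _ => S.h0 _) a3.le
  obtain ⟨b1, b2, b3, -⟩ := h y hy
  exact mem_filter.2 ⟨(S.hD _ _).2 (b1.trans a1.symm), b3, b2.trans a2.symm, hmin y hy⟩

lemma sent_sum (hg : Injective g) (G : Finset ℕ) (m : ℕ) : ∑ n ∈ G, S.sent g n m ≤ 1 := by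
  simp only [sent, sum_filter]
  rw [← S.sum_Z, ← sum_filter]
  exact (sum_inj S.h0 hg.injOn fun x hx => (S.hD _ _).2 (mem_filter.1 hx).2).trans (S.h1 m)

lemma escape (hg : Involutive g) (M : ℕ) : ∀ᶠ n in atTop, ∀ x ∈ S.D n, M ≤ S.b (g x) := by
  filter_upwards [eventually_gt_atTop (((range M).biUnion S.D).sup fun z => S.b (g z))] with n hn x hx
  by_contra h
  have := le_sup (f := fun z => S.b (g z)) (S.mem_Z.2 (mem_range.2 (not_le.1 h)))
  simp only [hg x, (S.hD _ _).1 hx] at this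
  omega

lemma geo_union {n : ℕ} {p : ℕ → Prop} {V : ℕ → ℕ → Prop} {c : ℝ} (hc : 0 ≤ c)
    (h : ∀ r, S.ms n (V r) ≤ c * (1 / 2) ^ r) (hp : ∀ x ∈ S.D n, p x → ∃ r, V r x) :
    S.ms n p ≤ 2 * c := by
  choose! ρ hρ using hp
  rw [ms, ← sum_fiberwise_of_maps_to (t := range ((S.D n).sup ρ + 1)) (g := ρ) fun x hx =>
    mem_range.2 (Nat.lt_succ_of_le (le_sup (mem_filter.1 hx).1))]
  refine (sum_le_sum fun r _ => (sum_le_sum_of_subset_of_nonneg (fun x hx => ?_)
    fun _ _ _ => S.h0 _).trans (h r)).trans ?_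
  · obtain ⟨h1, rfl⟩ := mem_filter.1 hx
    exact mem_filter.2 ⟨(mem_filter.1 h1).1, hρ x (mem_filter.1 h1).1 (mem_filter.1 h1).2⟩
  · rw [← mul_sum, mul_comm]
    exact mul_le_mul_of_nonneg_right (sum_geometric_two_le _) hc

lemma ms_mono {n : ℕ} {p q : ℕ → Prop} (h : ∀ x ∈ S.D n, p x → q x) : S.ms n p ≤ S.ms n q :=
  sum_le_sum_of_subset_of_nonneg (fun x hx => mem_filter.2
    ⟨(mem_filter.1 hx).1, h x (mem_filter.1 hx).1 (mem_filter.1 hx).2⟩) fun _ _ _ => S.h0 _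

lemma ms_le_of {n : ℕ} {p : ℕ → Prop} {η : ℝ}
    (h : ∀ X : Finset ℕ, (∀ x ∈ X, S.b x = n ∧ p x) → ∑ x ∈ X, S.w x ≤ η) : S.ms n p ≤ η :=
  h _ fun _ hx => ⟨(S.hD _ _).1 (mem_filter.1 hx).1, (mem_filter.1 hx).2⟩

lemma ms_or {n : ℕ} (p q : ℕ → Prop) : S.ms n (fun x => p x ∨ q x) ≤ S.ms n p + S.ms n q := by
  simp only [ms, sum_filter, ← sum_add_distrib]
  refine sum_le_sum fun x _ => ?_
  have := S.h0 x
  by_cases h1 : p x <;> by_cases h2 : q x <;> simp [h1, h2, this]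

lemma orient (H : CondA S.b S.w) (hg : Involutive g) {η : ℝ} (hη : 0 < η) :
    ∃ δ : ℝ, 0 < δ ∧ ∃ (N : ℕ) (T : Set ℕ), (∀ x, x ∈ T ∨ g x ∈ T) ∧ ∀ n, S.ms n (fun x =>
      x ∈ T ∧ S.Pos g x ∧ S.cum g x < δ ∧ S.cum g (g x) < δ ∧ N ≤ S.b x ∧ N ≤ S.b (g x)) ≤ η := by
  obtain ⟨δ, hδ, N, hN⟩ := overlap H hg.injective (η := η / 4) (by positivity)
  obtain ⟨Q, hQ⟩ : ∃ Q : ℕ → Prop, ∀ x, Q x ↔ S.Pos g x ∧ S.cum g x < δ ∧ S.cum g (g x) < δ ∧
    N ≤ S.b x ∧ N ≤ S.b (g x) := ⟨_, fun _ => Iff.rfl⟩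
  set K : Set (ℕ → ℝ) := {p | ∀ x, p x ∈ Set.Icc (0 : ℝ) 1 ∧ 1 ≤ p x + p (g x)} with hK
  have K1 : IsCompact K := (isCompact_univ_pi fun _ => isCompact_Icc).of_isClosed_subset (by
    simp only [hK, Set.ofPred_forall]
    exact isClosed_iInter fun x => (isClosed_Icc.preimage (continuous_apply x)).inter
      (isClosed_le continuous_const ((continuous_apply x).add (continuous_apply (g x))))) fun _ hx x _ => (hx x).1
  have K2 : Convex ℝ K := fun p hp q hq a b ha hb hab x =>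
    ⟨convex_Icc (0 : ℝ) 1 (hp x).1 (hq x).1 ha hb hab, by
      have h1 := mul_le_mul_of_nonneg_left (hp x).2 ha
      have h2 := mul_le_mul_of_nonneg_left (hq x).2 hb
      simp only [Pi.add_apply, Pi.smul_apply, smul_eq_mul]
      linarith⟩
  set f : ℕ → (ℕ → ℝ) → ℝ := fun n p => ∑ x ∈ S.D n with Q x, S.w x * p x with hf
  have fc : ∀ n, Continuous (f n) := fun n => by simp only [hf]; fun_prop
  obtain ⟨p, hp, hp'⟩ := K1.inter_iInter_nonempty (fun n => {p | f n p ≤ 2 * (η / 4)})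
    (fun n => isClosed_le (fc n) continuous_const) fun I => by
    obtain ⟨p, hp, hp'⟩ := lp_fin K1 K2 f fc (fun n x y t => by
      simp only [hf, ← sum_sub_distrib, mul_sum, ← sum_add_distrib]
      exact sum_congr rfl fun P _ => by simp; ring) I (ε := η / 4) (by positivity) fun a ha => by
      set F := I.filter (N ≤ ·) with hF
      set u : ℕ → ℝ := fun n => if n ∈ F then a n else 0 with hu
      have u0 : ∀ n, 0 ≤ u n := fun n => by simp only [hu]; split_ifs; exacts [ha n, le_rfl]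
      refine ⟨fun x => if u (S.b x) * S.w x ≤ u (S.b (g x)) * S.w (g x) then 1 else 0,
        fun x => ⟨by dsimp only; split_ifs <;> simp, ?_⟩, ?_⟩
      · simp only [hg x]
        split_ifs with h1 h2 h2
        exacts [by norm_num, by norm_num, by norm_num, (h2 (not_le.1 h1).le).elim]
      have key := hN F u ((F.biUnion S.D).filter fun x => Q x ∧ S.b (g x) ∈ F)
        (fun n hn => (mem_filter.1 hn).2) u0
        (fun x hx => ⟨S.mem_Z.1 (mem_filter.1 hx).1, (mem_filter.1 hx).2.2⟩) fun n m => by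
        constructor
        · refine cell_le (g := g) (n := n) (m := m) hδ.le fun x hx => ?_
          obtain ⟨h1, h2, h3⟩ := mem_filter.1 hx
          obtain ⟨h4, h5, -⟩ := (hQ x).1 (mem_filter.1 h1).2.1
          exact ⟨h2, h3, h4, h5⟩
        · rw [← sum_image hg.injective.injOn]
          refine cell_le (g := g) (n := m) (m := n) hδ.le fun z hz => ?_
          obtain ⟨x, hx, rfl⟩ := mem_image.1 hz
          obtain ⟨h1, h2, h3⟩ := mem_filter.1 hx
          obtain ⟨h4, -, h5, -⟩ := (hQ x).1 (mem_filter.1 h1).2.1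
          exact ⟨h3, (hg x).symm ▸ h2, ⟨h4.2, (hg x).symm ▸ h4.1⟩, h5⟩
      have e1 : ∑ n ∈ F, u n ≤ ∑ n ∈ I, a n := (sum_congr rfl fun n hn => if_pos hn).trans_le
        (sum_le_sum_of_subset_of_nonneg (filter_subset _ _) fun n _ _ => ha n)
      refine le_trans ?_ (key.trans (mul_le_mul_of_nonneg_left e1 (by positivity)))
      rw [sum_filter, S.sum_Z, ← sum_subset (filter_subset (N ≤ ·) I) fun n hn hn' => by
        simp only [hf]
        rw [filter_false_of_mem fun x hx h => hn' (mem_filter.2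
          ⟨hn, ((hQ x).1 h).2.2.2.1.trans_eq ((S.hD _ _).1 hx)⟩), sum_empty, mul_zero]]
      refine sum_le_sum fun n hn => ?_
      simp only [hf, sum_filter, mul_sum]
      refine sum_le_sum fun x hx => ?_
      have e2 : a n = u (S.b x) := by rw [(S.hD _ _).1 hx]; exact (if_pos hn).symm
      have e3 := mul_nonneg (u0 (S.b x)) (S.h0 x)
      have e4 := mul_nonneg (u0 (S.b (g x))) (S.h0 (g x))
      rw [e2]
      by_cases h1 : Q x
      · by_cases h2 : u (S.b x) * S.w x ≤ u (S.b (g x)) * S.w (g x)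
        · rw [if_pos h1, if_pos h2, mul_one]
          split_ifs with h3
          · exact (min_eq_left h2).ge
          · refine h2.trans_eq ?_
            rw [show u (S.b (g x)) = 0 from if_neg fun h => h3 ⟨h1, h⟩, zero_mul]
        · rw [if_pos h1, if_neg h2, mul_zero, mul_zero]
          split_ifs
          exacts [le_min e3 e4, le_rfl]
      · simp [h1]
    exact ⟨p, hp, Set.mem_iInter₂.2 hp'⟩
  refine ⟨δ, hδ, N, {x | 1 / 2 ≤ p x}, fun x => ?_, fun n => ?_⟩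
  · by_contra h
    simp only [not_or, Set.mem_ofPred_eq, not_le] at h
    linarith [(hp x).2]
  · have a1 : f n p ≤ 2 * (η / 4) := Set.mem_iInter.1 hp' n
    refine le_trans ?_ (show 2 * f n p ≤ η by linarith)
    simp only [hf, ms, mul_sum, sum_filter, ← hQ, Set.mem_ofPred_eq]
    refine sum_le_sum fun x _ => ?_
    have := S.h0 x
    have := (hp x).1.1
    by_cases h1 : Q x <;> by_cases h2 : 1 / 2 ≤ p x <;> simp only [h1, h2, and_self, if_true,
      if_false, and_true, and_false, mul_zero, le_refl] <;> nlinarith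

lemma lopsided (H : CondB S.b S.w) (hg : Involutive g) {η : ℝ} (hη : 0 < η) :
    ∃ δ : ℝ, 0 < δ ∧ ∀ β : ℝ, 0 < β → ∃ δ' : ℝ, 0 < δ' ∧ ∃ N : ℕ, ∀ n, S.ms n (fun x =>
      S.Pos g x ∧ S.cum g x < δ' ∧ β ≤ S.cum g (g x) ∧ S.cum g (g x) < δ ∧ N ≤ S.b x ∧
        N ≤ S.b (g x)) ≤ η := by
  obtain ⟨δ, hδ, H⟩ := H (η / 2) (half_pos hη)
  refine ⟨δ, hδ, fun β hβ => ?_⟩
  obtain ⟨θ, hθ, N, hN⟩ := H (1 / β)
  refine ⟨η / 2 * (θ * β), by positivity, N, fun n => ms_le_of fun X hx => ?_⟩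
  rcases X.eq_empty_or_nonempty with rfl | ⟨x0, hx0⟩
  · simpa using hη.le
  have pg : ∀ x, S.Pos g x → S.Pos g (g x) := fun x h => ⟨h.2, (hg x).symm ▸ h.1⟩
  set C := X.filter fun x => S.sent g (S.b (g x)) n / β ≤ θ with hC
  set v : ℕ → ℝ := fun m => if S.sent g m n / β ≤ θ then S.sent g m n / β else 0 with hv
  have v0 : ∀ m, 0 ≤ S.sent g m n / β := fun m => div_nonneg (sent_nonneg _ _) hβ.le
  have a1 := hN n ((hx x0 hx0).1 ▸ (hx x0 hx0).2.2.2.2.2.1) C (C.image g) v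
    (fun x h => (hx x (mem_filter.1 h).1).1) (fun z hz => by
      obtain ⟨x, h, rfl⟩ := mem_image.1 hz
      exact (hx x (mem_filter.1 h).1).2.2.2.2.2.2) (fun m => cell_le (g := g) (n := m) (m := n)
        hδ.le fun z hz => by
      obtain ⟨h1, h2⟩ := mem_filter.1 hz
      obtain ⟨x, h, rfl⟩ := mem_image.1 h1
      obtain ⟨b1, b2, -, -, b3, -⟩ := hx x (mem_filter.1 h).1
      exact ⟨h2, (hg x).symm ▸ b1, pg x b2, b3⟩) (fun m => by
      simp only [hv]; split_ifs with h; exacts [⟨v0 m, h⟩, ⟨le_rfl, hθ.le⟩]) (by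
      refine (sum_le_sum (g := fun m => S.sent g m n / β) fun m _ => by
        simp only [hv]; split_ifs; exacts [le_rfl, v0 m]).trans ?_
      rw [← sum_div]
      exact div_le_div_of_nonneg_right (sent_sum hg.injective _ n) hβ.le) fun t _ =>
      card_le_card_of_injOn g (fun x h => by
        obtain ⟨h1, h2⟩ := mem_filter.1 h
        obtain ⟨h3, h4⟩ := mem_filter.1 h1
        obtain ⟨b1, b2, -, b3, -⟩ := hx x h3
        refine mem_coe.2 (mem_filter.2 ⟨mem_image_of_mem _ h1, h2.trans ?_⟩)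
        have := cum_le (pg x b2)
        rw [hg x, b1] at this
        simp only [hv, if_pos h4]
        rw [div_mul_eq_mul_div, le_div_iff₀ hβ]
        exact (mul_le_mul_of_nonneg_left b3 (S.h0 x)).trans this) hg.injective.injOn
  have a2 : ∑ x ∈ X with ¬ S.sent g (S.b (g x)) n / β ≤ θ, S.w x ≤ η / 2 := by
    rw [← sum_fiberwise_of_maps_to (g := fun x => S.b (g x)) fun x h =>
      mem_image_of_mem (fun x => S.b (g x)) h]
    refine (sum_le_sum (g := fun m => η / 2 * S.sent g m n) fun m hm => ?_).trans ?_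
    · obtain ⟨y, hy, rfl⟩ := mem_image.1 hm
      refine (cell_le (g := g) (n := n) (m := S.b (g y)) (δ := η / 2 * (θ * β)) (by positivity)
        fun x h => ?_).trans
        (mul_le_mul_of_nonneg_left ((lt_div_iff₀ hβ).1 (not_le.1 (mem_filter.1 hy).2)).le
          (half_pos hη).le)
      obtain ⟨b1, b2, b3, -⟩ := hx x (mem_filter.1 (mem_filter.1 h).1).1
      exact ⟨b1, (mem_filter.1 h).2, b2, b3⟩
    · rw [← mul_sum]
      exact mul_le_of_le_one_right (half_pos hη).le (sent_sum hg.injective _ n)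
  rw [← sum_filter_add_sum_filter_not _ fun x => S.sent g (S.b (g x)) n / β ≤ θ]
  linarith

lemma charged (HA : CondA S.b S.w) (HB : CondB S.b S.w) (hg : Involutive g) :
    ∃ T : Set ℕ, (∀ x, x ∈ T ∨ g x ∈ T) ∧ ∀ η : ℝ, 0 < η → ∃ δ : ℝ, 0 < δ ∧ ∀ᶠ n in atTop,
      S.ms n (fun x => x ∈ T ∧ S.Pos g x ∧ S.cum g (g x) < δ) ≤ η := by
  choose δA δA0 NA T T1 T2 using fun k : ℕ => orient HA hg (η := (1 / 2) ^ k) (by positivity)
  choose δB δB0 hB using fun k : ℕ => lopsided HB hg (η := (1 / 2) ^ k) (by positivity)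
  choose! δ' δ'0 NB hB using hB
  let d : ℕ → ℝ := fun k => Nat.rec (min (δA 0) (δB 0))
    (fun k r => min (min r (δ' (k - 1) r)) (min (δA (k + 1)) (δB (k + 1)))) k
  let M : ℕ → ℕ := fun k => Nat.rec (NA 0)
    (fun k r => max (max (r + 1) (NB (k - 1) (d k))) (NA (k + 1))) k
  have d0 : ∀ k, 0 < d k := fun k => by
    induction k with
    | zero => exact lt_min (δA0 0) (δB0 0)
    | succ k ih => exact lt_min (lt_min ih (δ'0 _ _ ih)) (lt_min (δA0 _) (δB0 _))
  have d1 : ∀ k, d k ≤ δA k ∧ d k ≤ δB k := fun k => by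
    cases k with
    | zero => exact ⟨min_le_left _ _, min_le_right _ _⟩
    | succ k => exact le_min_iff.1 (min_le_right _ _)
  have d2 : ∀ k, d (k + 2) ≤ δ' k (d (k + 1)) := fun k => (min_le_left _ _).trans (min_le_right _ _)
  have d3 : Antitone d := antitone_nat_of_succ_le fun k => (min_le_left _ _).trans (min_le_left _ _)
  have M1 : ∀ k, NA k ≤ M k := fun k => by
    cases k with
    | zero => exact le_rfl
    | succ k => exact le_max_right _ _
  have M2 : ∀ k, NB k (d (k + 1)) ≤ M (k + 2) := fun k => (le_max_right _ _).trans (le_max_left _ _)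
  have M3 : StrictMono M := strictMono_nat_of_lt_succ fun k =>
    Nat.lt_of_succ_le ((le_max_left _ _).trans (le_max_left _ _))
  have ex : ∀ x, ∃ k, ¬ (S.cum g x < d k ∧ M k ≤ S.b x ∧ M k ≤ S.b (g x)) := fun x =>
    ⟨S.b x + 1, fun h => by have := (M3.id_le (S.b x + 1)).trans h.2.1; simp at this⟩
  obtain ⟨l, hl⟩ : ∃ l : ℕ → ℕ, ∀ x k, k < l x ↔
      S.cum g x < d k ∧ M k ≤ S.b x ∧ M k ≤ S.b (g x) := by
    refine ⟨fun x => Nat.find (ex x), fun x k => ⟨fun h => not_not.1 (Nat.find_min (ex x) h),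
      fun h => not_le.1 fun h' => Nat.find_spec (ex x) ⟨h.1.trans_le (d3 h'),
        (M3.monotone h').trans h.2.1, (M3.monotone h').trans h.2.2⟩⟩⟩
  refine ⟨{x | l (g x) + 2 ≤ l x ∨ (l x ≤ l (g x) + 1 ∧ l (g x) ≤ l x + 1 ∧
    x ∈ T (min (l x) (l (g x)) - 1))}, fun x => ?_, fun η hη => ?_⟩
  · simp only [Set.mem_ofPred_eq, hg x, min_comm (l (g x))]
    rcases T1 (min (l x) (l (g x)) - 1) x with h | h <;> simp only [h, and_true] <;> omega
  obtain ⟨k, hk⟩ := exists_pow_lt_of_lt_one (show 0 < η / 4 by positivity)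
    (show (1 / 2 : ℝ) < 1 by norm_num)
  refine ⟨d (k + 1), d0 (k + 1), ?_⟩
  filter_upwards [eventually_ge_atTop (M (k + 1)), escape (S := S) hg (M (k + 1))] with n h1 h2
  refine (geo_union (c := 2 * (1 / 2) ^ k) (V := fun r x => _ ∨ _) (by positivity)
    (fun r => (ms_or _ _).trans ((add_le_add (T2 (k + r) n)
      (hB (k + r) (d (k + r + 1)) (d0 (k + r + 1)) n)).trans_eq (by ring))) ?_).trans (by linarith)
  rintro x hx ⟨h3, h4, h5⟩
  have a1 : k + 1 < l (g x) := (hl _ _).2 ⟨h5, h2 x hx, by rw [hg x, (S.hD _ _).1 hx]; exact h1⟩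
  rcases h3 with h3 | ⟨h3, h6, h7⟩
  · obtain ⟨r, hr⟩ : ∃ r, l (g x) = k + r + 1 := ⟨l (g x) - k - 1, by omega⟩
    obtain ⟨b1, b2, b3⟩ := (hl x (k + r + 2)).1 (by omega)
    have b4 := (hl (g x) (k + r)).1 (by omega)
    have b5 := mt (hl (g x) (k + r + 1)).2 (by omega)
    have b6 := M3.monotone (show k + r + 1 ≤ k + r + 2 by omega)
    rw [hg x] at b5
    exact ⟨r, Or.inr ⟨h4, b1.trans_le (d2 _), not_lt.1 fun h => b5 ⟨h, b6.trans b3, b6.trans b2⟩,
      b4.1.trans_le (d1 _).2, (M2 _).trans b2, (M2 _).trans b3⟩⟩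
  · obtain ⟨r, hr⟩ : ∃ r, min (l x) (l (g x)) - 1 = k + r := ⟨min (l x) (l (g x)) - 1 - k, by omega⟩
    obtain ⟨b1, b2, b3⟩ := (hl x (k + r)).1 (by omega)
    have b4 := (hl (g x) (k + r)).1 (by omega)
    exact ⟨r, Or.inl ⟨hr ▸ h7, h4, b1.trans_le (d1 _).1, b4.1.trans_le (d1 _).1,
      (M1 _).trans b2, (M1 _).trans b3⟩⟩

theorem split (HA : CondA S.b S.w) (HB : CondB S.b S.w) (hg : Involutive g) :
    ∃ T : Set ℕ, (∀ x, x ∈ T ∨ g x ∈ T) ∧ ∀ X ⊆ T, S.Sm X → S.Sm (g ⁻¹' X) := by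
  obtain ⟨T, T1, T2⟩ := charged HA HB hg
  refine ⟨{x | S.w (g x) = 0 ∨ (S.Pos g x ∧ g x ∈ T)}, fun x => ?_, fun X hX hs γ hγ => ?_⟩
  · simp only [Set.mem_ofPred_eq, Pos, hg x]
    rcases (S.h0 x).eq_or_lt with h1 | h1
    · exact Or.inr (Or.inl h1.symm)
    rcases (S.h0 (g x)).eq_or_lt with h2 | h2
    · exact Or.inl (Or.inl h2.symm)
    exact (T1 x).symm.imp (fun h => Or.inr ⟨⟨h1, h2⟩, h⟩) fun h => Or.inr ⟨⟨h2, h1⟩, h⟩
  obtain ⟨δ, hδ, h1⟩ := T2 (γ / 2) (half_pos hγ)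
  obtain ⟨M, hM⟩ := eventually_atTop.1 (hs (γ / 2 * δ) (by positivity))
  filter_upwards [h1, escape (S := S) hg M] with m h2 h3
  have a1 : S.ms m (fun z => g z ∈ X ∧ S.Pos g (g z) ∧ δ ≤ S.cum g (g z)) ≤ γ / 2 := by
    refine ms_le_of fun Y hY => ?_
    rw [← sum_fiberwise_of_maps_to (g := fun z => S.b (g z)) fun z h =>
      mem_image_of_mem (fun z => S.b (g z)) h]
    refine (sum_le_sum (g := fun n => γ / 2 * S.sent g n m) fun n hn => ?_).trans ?_
    · obtain ⟨y, hy, rfl⟩ := mem_image.1 hn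
      have b1 := hM _ (h3 y ((S.hD _ _).2 (hY y hy).1))
      rw [sum_indicator_eq_sum_filter] at b1
      refine le_of_mul_le_mul_right ?_ hδ
      rw [sum_mul, mul_right_comm, mul_comm (γ / 2 * δ)]
      refine le_trans ?_ (mul_le_mul_of_nonneg_left ((sum_inj S.h0
        (C := Y.filter fun z => S.b (g z) = S.b (g y)) hg.injective.injOn
        fun z hz => mem_filter.2 ⟨(S.hD _ _).2 (mem_filter.1 hz).2,
          (hY z (mem_filter.1 hz).1).2.1⟩).trans b1) (sent_nonneg _ _))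
      rw [mul_sum]
      refine sum_le_sum fun z hz => ?_
      obtain ⟨c1, c2⟩ := mem_filter.1 hz
      obtain ⟨c3, -, c4, c5⟩ := hY z c1
      have := cum_le c4
      rw [hg z, c2, c3] at this
      exact (mul_le_mul_of_nonneg_left c5 (S.h0 z)).trans this
    · rw [← mul_sum]
      exact mul_le_of_le_one_right (half_pos hγ).le (sent_sum hg.injective _ m)
  refine le_trans ?_ ((ms_or _ _).trans ((add_le_add h2 a1).trans_eq (add_halves γ)))
  rw [ms, sum_filter]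
  refine sum_le_sum fun z _ => ?_
  by_cases h : g z ∈ X
  · rw [Set.indicator_of_mem (show z ∈ g ⁻¹' X from h)]
    rcases hX h with h' | ⟨h4, h5⟩
    · rw [hg z] at h'
      rw [h', ite_self]
    · rw [hg z] at h5
      rw [if_pos]
      rcases lt_or_ge (S.cum g (g z)) δ with h6 | h6
      · exact Or.inl ⟨h5, ⟨hg z ▸ h4.2, h4.1⟩, h6⟩
      · exact Or.inr ⟨h, h4, h6⟩
  · rw [Set.indicator_of_notMem (show z ∉ g ⁻¹' X from h)]
    split_ifs
    exacts [S.h0 z, le_rfl]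

end Sp

end Pool.Agent.P.MP_f6e960_lc.X
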